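import Pool.Agent.H50.Bose3.Multi

set_option autoImplicit false

/-!
# Counting coincidences of boxes
-/

namespace Pool.Agent.H50.Bose3

open Pool.Agent.H50.Bose

section Coin

variable {κ Q : Type} [Fintype κ] [DecidableEq κ] [Fintype Q] [DecidableEq Q]

/-- Resampling one coordinate. -/
theorem resample {i j : κ} (hij : i ≠ j) (P : (κ → Q) → Prop) [DecidablePred P]
    (hP : ∀ g q, P (Function.update g j q) ↔ P g) :
    (∑ g : κ → Q, if P g ∧ g j = g i then (1 : ℝ) else 0) * Fintype.card Q =
      ∑ g : κ → Q, if P g then (1 : ℝ) else 0 := by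
  classical
  have h1 : Fintype.card {g : κ → Q // P g ∧ g j = g i} * Fintype.card Q =
      Fintype.card {g : κ → Q // P g} := by
    rw [← Fintype.card_prod]
    apply Fintype.card_congr
    refine ⟨fun x => ⟨Function.update x.1.1 j x.2, (hP _ _).mpr x.1.2.1⟩,
      fun h => (⟨Function.update h.1 j (h.1 i), (hP _ _).mpr h.2, ?_⟩, h.1 j), ?_, ?_⟩
    · rw [Function.update_self, Function.update_of_ne hij]
    · rintro ⟨⟨g, hg1, hg2⟩, q⟩
      simp only [Prod.mk.injEq, Subtype.mk.injEq]
      refine ⟨?_, by simp⟩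
      funext l
      by_cases hl : l = j
      · subst hl
        rw [Function.update_self, Function.update_of_ne hij]
        exact hg2.symm
      · rw [Function.update_of_ne hl, Function.update_of_ne hl]
    · rintro ⟨h, hh⟩
      simp
  have e1 : (∑ g : κ → Q, if P g ∧ g j = g i then (1 : ℝ) else 0) =
      (Fintype.card {g : κ → Q // P g ∧ g j = g i} : ℝ) := by
    rw [Finset.sum_ite, Finset.sum_const_zero, add_zero, Finset.sum_const, nsmul_eq_mul, mul_one,
      Fintype.card_subtype]
  have e2 : (∑ g : κ → Q, if P g then (1 : ℝ) else 0) =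
      (Fintype.card {g : κ → Q // P g} : ℝ) := by
    rw [Finset.sum_ite, Finset.sum_const_zero, add_zero, Finset.sum_const, nsmul_eq_mul, mul_one,
      Fintype.card_subtype]
  rw [e1, e2, ← h1]
  push_cast
  ring

/-- Two coincide. -/
theorem coin_two {i j : κ} (hij : i ≠ j) :
    (∑ g : κ → Q, if g i = g j then (1 : ℝ) else 0) * Fintype.card Q =
      (Fintype.card Q : ℝ) ^ Fintype.card κ := by
  have h1 := resample (Q := Q) hij (fun _ => True) (fun _ _ => Iff.rfl)
  simp only [true_and, if_true, Finset.sum_const, Finset.card_univ, nsmul_eq_mul, mul_one,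
    Fintype.card_fun, Nat.cast_pow] at h1
  rw [← h1]
  congr 1
  apply Finset.sum_congr rfl
  intro g _
  simp only [eq_comm]

/-- Three coincide. -/
theorem coin_three {i j k : κ} (hij : i ≠ j) (hik : i ≠ k) (hjk : j ≠ k) :
    (∑ g : κ → Q, if g i = g j ∧ g i = g k then (1 : ℝ) else 0) * (Fintype.card Q : ℝ) ^ 2 =
      (Fintype.card Q : ℝ) ^ Fintype.card κ := by
  have h1 := resample (Q := Q) hik (fun g => g i = g j) (fun g q => by
    rw [Function.update_of_ne hik, Function.update_of_ne hjk])
  rw [← coin_two (Q := Q) hij, ← h1, pow_two, ← mul_assoc]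
  congr 2
  apply Finset.sum_congr rfl
  intro g _
  simp only [eq_comm (a := g k)]

end Coin

section Tau

variable {N m : ℕ}

/-- The number of pairs in the same box. -/
noncomputable def nP (τ : Fin N → Fin 3 → Fin m) : ℝ :=
  ∑ i, ∑ j, if i < j then (if τ i = τ j then (1 : ℝ) else 0) else 0

/-- The number of triples in the same box. -/
noncomputable def nT (τ : Fin N → Fin 3 → Fin m) : ℝ :=
  ∑ i, ∑ j, ∑ k, if i < j ∧ j < k then (if τ i = τ j ∧ τ i = τ k then (1 : ℝ) else 0) else 0

theorem sum_nP : (∑ τ : Fin N → Fin 3 → Fin m, nP τ) * (m : ℝ) ^ 3 =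
    cnt N * ((m : ℝ) ^ 3) ^ N := by
  unfold nP cnt
  rw [Finset.sum_comm, Finset.sum_mul, Finset.sum_mul]
  apply Finset.sum_congr rfl
  intro i _
  rw [Finset.sum_comm, Finset.sum_mul, Finset.sum_mul]
  apply Finset.sum_congr rfl
  intro j _
  by_cases h : i < j
  · simp only [h, if_true, one_mul]
    have h1 := coin_two (κ := Fin N) (Q := Fin 3 → Fin m) h.ne
    simpa using h1
  · simp [h]

theorem sum_nT_le : (∑ τ : Fin N → Fin 3 → Fin m, nT τ) * ((m : ℝ) ^ 3) ^ 2 ≤
    (N : ℝ) ^ 3 * ((m : ℝ) ^ 3) ^ N := by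
  have h0 : ∀ i j k : Fin N, (∑ τ : Fin N → Fin 3 → Fin m,
      if i < j ∧ j < k then (if τ i = τ j ∧ τ i = τ k then (1 : ℝ) else 0) else 0) *
        ((m : ℝ) ^ 3) ^ 2 ≤ ((m : ℝ) ^ 3) ^ N := by
    intro i j k
    by_cases h : i < j ∧ j < k
    · simp only [h, and_self, if_true]
      have h1 := coin_three (κ := Fin N) (Q := Fin 3 → Fin m) h.1.ne (h.1.trans h.2).ne h.2.ne
      simp only [Fintype.card_fun, Fintype.card_fin, Nat.cast_pow] at h1
      exact h1.le
    · simp only [h, if_false, Finset.sum_const_zero, zero_mul]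
      positivity
  unfold nT
  rw [Finset.sum_comm, Finset.sum_mul]
  calc _ ≤ ∑ _i : Fin N, (N : ℝ) ^ 2 * ((m : ℝ) ^ 3) ^ N := by
        apply Finset.sum_le_sum
        intro i _
        rw [Finset.sum_comm, Finset.sum_mul]
        calc _ ≤ ∑ _j : Fin N, (N : ℝ) * ((m : ℝ) ^ 3) ^ N := by
              apply Finset.sum_le_sum
              intro j _
              rw [Finset.sum_comm, Finset.sum_mul]
              calc _ ≤ ∑ _k : Fin N, ((m : ℝ) ^ 3) ^ N := by
                    apply Finset.sum_le_sum
                    intro k _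
                    exact h0 i j k
                _ = _ := by simp
          _ = _ := by
            simp
            ring
    _ = _ := by
      simp
      ring

theorem nT_nonneg (τ : Fin N → Fin 3 → Fin m) : 0 ≤ nT τ := by
  unfold nT
  apply Finset.sum_nonneg
  intro i _
  apply Finset.sum_nonneg
  intro j _
  apply Finset.sum_nonneg
  intro k _
  split_ifs <;> norm_num

end Tau

end Pool.Agent.H50.Bose3
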