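import Pool.Agent.H50.Bose3.Pair

set_option autoImplicit false

/-!
# The energy of the trial function made of many boxes
-/

namespace Pool.Agent.H50.Bose3

open MeasureTheory Set Pool.Agent.H50.Bose

variable {N m : ℕ}

/-- The two-body part of the potential. -/
noncomputable def potW (N : ℕ) (β : ℝ) (W : (Fin 3 → ℝ) → ℝ) (X : Fin N → Fin 3 → ℝ) : ℝ :=
  ∑ i, ∑ j, if i < j then (N : ℝ) ^ (3 * β - 1) * W ((N : ℝ) ^ β • (X i - X j)) else 0

/-- The three-body part of the potential. -/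
noncomputable def potV (N : ℕ) (V : (Fin 3 → ℝ) → (Fin 3 → ℝ) → ℝ) (X : Fin N → Fin 3 → ℝ) : ℝ :=
  ∑ i, ∑ j, ∑ k, if i < j ∧ j < k then
    (N : ℝ) * V ((N : ℝ) ^ (1 / 2 : ℝ) • (X i - X j)) ((N : ℝ) ^ (1 / 2 : ℝ) • (X i - X k)) else 0

theorem measurable_pair {W : (Fin 3 → ℝ) → ℝ} (hW : Measurable W) (s : ℝ) (i j : Fin N) :
    Measurable fun X : Fin N → Fin 3 → ℝ => W (s • (X i - X j)) := by
  have h1 : Measurable fun X : Fin N → Fin 3 → ℝ => s • (X i - X j) := by fun_prop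
  exact hW.comp h1

theorem measurable_potW {β : ℝ} {W : (Fin 3 → ℝ) → ℝ} (hW : Measurable W) :
    Measurable (potW N β W) := by
  unfold potW
  apply Finset.measurable_fun_sum
  intro i _
  apply Finset.measurable_fun_sum
  intro j _
  by_cases h : i < j
  · simp only [h, if_true]
    exact (measurable_pair hW _ i j).const_mul _
  · simp only [h, if_false]
    exact measurable_const

theorem measurable_potV {V : (Fin 3 → ℝ) → (Fin 3 → ℝ) → ℝ}
    (hV : Measurable (Function.uncurry V)) : Measurable (potV N V) := by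
  unfold potV
  apply Finset.measurable_fun_sum
  intro i _
  apply Finset.measurable_fun_sum
  intro j _
  apply Finset.measurable_fun_sum
  intro k _
  by_cases h : i < j ∧ j < k
  · simp only [h, and_self, if_true]
    have h1 : Measurable fun X : Fin N → Fin 3 → ℝ =>
        ((N : ℝ) ^ (1 / 2 : ℝ) • (X i - X j), (N : ℝ) ^ (1 / 2 : ℝ) • (X i - X k)) := by
      fun_prop
    exact (hV.comp h1).const_mul _
  · simp only [h, if_false]
    exact measurable_const

theorem potW_bdd {β : ℝ} {W : (Fin 3 → ℝ) → ℝ} {B : ℝ} (hB : ∀ x, |W x| ≤ B)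
    (X : Fin N → Fin 3 → ℝ) : |potW N β W X| ≤ (N : ℝ) ^ 2 * ((N : ℝ) ^ (3 * β - 1) * B) := by
  have hB0 : 0 ≤ B := (abs_nonneg _).trans (hB 0)
  have ht : 0 ≤ (N : ℝ) ^ (3 * β - 1) := Real.rpow_nonneg (Nat.cast_nonneg _) _
  unfold potW
  refine (Finset.abs_sum_le_sum_abs _ _).trans ?_
  calc _ ≤ ∑ _i : Fin N, (N : ℝ) * ((N : ℝ) ^ (3 * β - 1) * B) := by
        apply Finset.sum_le_sum
        intro i _
        refine (Finset.abs_sum_le_sum_abs _ _).trans ?_
        calc _ ≤ ∑ _j : Fin N, ((N : ℝ) ^ (3 * β - 1) * B) := by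
              apply Finset.sum_le_sum
              intro j _
              split_ifs
              · rw [abs_mul, abs_of_nonneg ht]
                exact mul_le_mul_of_nonneg_left (hB _) ht
              · rw [abs_zero]
                positivity
          _ = _ := by simp
    _ = _ := by
      simp
      ring

theorem potV_bdd {V : (Fin 3 → ℝ) → (Fin 3 → ℝ) → ℝ} {B : ℝ} (h0 : ∀ x y, 0 ≤ V x y)
    (hB : ∀ x y, V x y ≤ B) (X : Fin N → Fin 3 → ℝ) :
    |potV N V X| ≤ (N : ℝ) ^ 3 * ((N : ℝ) * B) := by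
  have hB0 : 0 ≤ B := (h0 0 0).trans (hB 0 0)
  unfold potV
  refine (Finset.abs_sum_le_sum_abs _ _).trans ?_
  calc _ ≤ ∑ _i : Fin N, (N : ℝ) ^ 2 * ((N : ℝ) * B) := by
        apply Finset.sum_le_sum
        intro i _
        refine (Finset.abs_sum_le_sum_abs _ _).trans ?_
        calc _ ≤ ∑ _j : Fin N, (N : ℝ) * ((N : ℝ) * B) := by
              apply Finset.sum_le_sum
              intro j _
              refine (Finset.abs_sum_le_sum_abs _ _).trans ?_
              calc _ ≤ ∑ _k : Fin N, ((N : ℝ) * B) := by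
                    apply Finset.sum_le_sum
                    intro k _
                    split_ifs
                    · rw [abs_mul, abs_of_nonneg (Nat.cast_nonneg _), abs_of_nonneg (h0 _ _)]
                      exact mul_le_mul_of_nonneg_left (hB _ _) (Nat.cast_nonneg _)
                    · rw [abs_zero]
                      positivity
                _ = _ := by simp
          _ = _ := by
            simp
            ring
    _ = _ := by
      simp
      ring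

/-- The integral of a bounded function against the square of the trial function. -/
theorem integral_multi {L : ℝ} (hL : 0 < L) {d : ℝ} (hd : 2 / L < d)
    {F : (Fin N → Fin 3 → ℝ) → ℝ} (hF : Measurable F) {B : ℝ} (hB : ∀ X, |F X| ≤ B) :
    ∫ X, F X * ‖multi N m L d X‖ ^ 2 =
      ∑ τ : Fin N → Fin 3 → Fin m, ∫ X, F X * ‖trial N L (X - cen d τ)‖ ^ 2 := by
  have h1 : ContDiff ℝ 1 (trial N L) := (trial_contDiff L).of_le (by exact_mod_cast le_top)
  have h2 := integrable_sq h1.continuous (isTest_trial hL).supp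
  simp_rw [multi_sq hL hd, Finset.mul_sum]
  apply integral_finsetSum
  intro τ _
  apply (integrable_translate h2 (cen d τ)).bdd_mul (c := B) hF.aestronglyMeasurable
  exact Filter.Eventually.of_forall fun X => by
    rw [Real.norm_eq_abs]
    exact hB X

theorem integrable_shift {L : ℝ} (hL : 0 < L) (d : ℝ) (τ : Fin N → Fin 3 → Fin m)
    {F : (Fin N → Fin 3 → ℝ) → ℝ} (hF : Measurable F) {B : ℝ} (hB : ∀ X, |F X| ≤ B) :
    Integrable fun X => F X * ‖trial N L (X - cen d τ)‖ ^ 2 := by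
  have h1 : ContDiff ℝ 1 (trial N L) := (trial_contDiff L).of_le (by exact_mod_cast le_top)
  have h2 := integrable_sq h1.continuous (isTest_trial hL).supp
  apply (integrable_translate h2 (cen d τ)).bdd_mul (c := B) hF.aestronglyMeasurable
  exact Filter.Eventually.of_forall fun X => by
    rw [Real.norm_eq_abs]
    exact hB X

/-- The two-body energy of one summand. -/
theorem pair_tau {W : (Fin 3 → ℝ) → ℝ} (hW : IsPair W) {β K d : ℝ} (hK : 0 < K)
    (hN : (0 : ℝ) < N) (τ : Fin N → Fin 3 → Fin m) :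
    ∫ X, potW N β W X * ‖trial N ((N : ℝ) ^ β / K) (X - cen d τ)‖ ^ 2 ≤
      -((N : ℝ) ^ (3 * β - 1) * kap W K * nP τ) * ∫ X, ‖trial N ((N : ℝ) ^ β / K) X‖ ^ 2 := by
  obtain ⟨B, hB⟩ := hW.bdd
  have hs : 0 < (N : ℝ) ^ β := Real.rpow_pos_of_pos hN _
  have ht : 0 < (N : ℝ) ^ (3 * β - 1) := Real.rpow_pos_of_pos hN _
  have hL : 0 < (N : ℝ) ^ β / K := div_pos hs hK
  set L := (N : ℝ) ^ β / K with hLd
  set M := ∫ X, ‖trial N L X‖ ^ 2 with hM
  have hM0 : 0 ≤ M := integral_nonneg fun X => by positivity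
  have hint : ∀ i j : Fin N, Integrable fun X : Fin N → Fin 3 → ℝ =>
      W ((N : ℝ) ^ β • (X i - X j)) * ‖trial N L (X - cen d τ)‖ ^ 2 := fun i j =>
    integrable_shift hL d τ (measurable_pair hW.measurable _ i j) (fun X => hB _)
  have h1 : ∀ X : Fin N → Fin 3 → ℝ, potW N β W X * ‖trial N L (X - cen d τ)‖ ^ 2 =
      ∑ i, ∑ j, if i < j then (N : ℝ) ^ (3 * β - 1) *
        (W ((N : ℝ) ^ β • (X i - X j)) * ‖trial N L (X - cen d τ)‖ ^ 2) else 0 := by
    intro X
    unfold potW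
    rw [Finset.sum_mul]
    apply Finset.sum_congr rfl
    intro i _
    rw [Finset.sum_mul]
    apply Finset.sum_congr rfl
    intro j _
    split_ifs
    · ring
    · ring
  simp_rw [h1]
  have hint2 : ∀ i j : Fin N, Integrable fun X : Fin N → Fin 3 → ℝ =>
      if i < j then (N : ℝ) ^ (3 * β - 1) *
        (W ((N : ℝ) ^ β • (X i - X j)) * ‖trial N L (X - cen d τ)‖ ^ 2) else 0 := by
    intro i j
    by_cases h : i < j
    · simp only [h, if_true]
      exact (hint i j).const_mul _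
    · simp only [h, if_false]
      exact integrable_zero _ _ _
  rw [integral_finsetSum _ fun i _ => integrable_finsetSum _ fun j _ => hint2 i j]
  have e : -((N : ℝ) ^ (3 * β - 1) * kap W K * nP τ) * M =
      ∑ i, ∑ j, if i < j then (if τ i = τ j then -((N : ℝ) ^ (3 * β - 1) * kap W K * M) else 0)
        else 0 := by
    unfold nP
    rw [Finset.mul_sum, ← Finset.sum_neg_distrib, Finset.sum_mul]
    apply Finset.sum_congr rfl
    intro i _
    rw [Finset.mul_sum, ← Finset.sum_neg_distrib, Finset.sum_mul]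
    apply Finset.sum_congr rfl
    intro j _
    split_ifs <;> ring
  rw [e]
  apply Finset.sum_le_sum
  intro i _
  rw [integral_finsetSum _ fun j _ => hint2 i j]
  apply Finset.sum_le_sum
  intro j _
  by_cases h : i < j
  · simp only [h, if_true]
    rw [integral_const_mul]
    by_cases hτ : τ i = τ j
    · rw [if_pos hτ]
      have h2 : ∫ X : Fin N → Fin 3 → ℝ,
          W ((N : ℝ) ^ β • (X i - X j)) * ‖trial N L (X - cen d τ)‖ ^ 2 = -kap W K * M := by
        rw [← pair_val hW hK hs h.ne]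
        rw [← integral_translate (fun X : Fin N → Fin 3 → ℝ =>
          W ((N : ℝ) ^ β • (X i - X j)) * ‖trial N ((N : ℝ) ^ β / K) X‖ ^ 2) (cen d τ)]
        apply integral_congr_ae
        filter_upwards with X
        have h3 : (X - cen d τ) i - (X - cen d τ) j = X i - X j := by
          funext a
          simp only [Pi.sub_apply, cen, hτ]
          ring
        rw [h3]
      rw [h2]
      apply le_of_eq
      ring
    · rw [if_neg hτ]
      apply mul_nonpos_of_nonneg_of_nonpos ht.le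
      apply integral_nonpos
      intro X
      exact mul_nonpos_of_nonpos_of_nonneg (hW.nonpos _) (by positivity)
  · simp only [h, if_false, integral_zero]
    exact le_refl _

/-- The three-body energy of one summand. -/
theorem triple_tau_loc {V : (Fin 3 → ℝ) → (Fin 3 → ℝ) → ℝ} (hV : IsThreeBody V) {B b R L d : ℝ}
    (hB : ∀ x y, V x y ≤ B)
    (hb : ∀ x y, (∀ a, |x a| ≤ (N : ℝ) ^ (1 / 2 : ℝ) * (2 / L)) →
      (∀ a, |y a| ≤ (N : ℝ) ^ (1 / 2 : ℝ) * (2 / L)) → V x y ≤ b) (hR : 0 ≤ R)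
    (hsupp : ∀ x y, V x y ≠ 0 → ∀ a, |x a| ≤ R ∧ |y a| ≤ R) (hL : 0 < L) (hN : (0 : ℝ) < N)
    (hd : (R + 1) * (N : ℝ) ^ (-(1 / 2) : ℝ) + 2 / L ≤ d) (τ : Fin N → Fin 3 → Fin m) :
    ∫ X, potV N V X * ‖trial N L (X - cen d τ)‖ ^ 2 ≤
      (N : ℝ) * b * nT τ * ∫ X, ‖trial N L X‖ ^ 2 := by
  have hsq0 : 0 < (N : ℝ) ^ (1 / 2 : ℝ) := Real.rpow_pos_of_pos hN _
  have hb0 : 0 ≤ b := (hV.nonneg 0 0).trans (hb 0 0 (fun a => by simp; positivity)
    (fun a => by simp; positivity))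
  have h1 : ContDiff ℝ 1 (trial N L) := (trial_contDiff L).of_le (by exact_mod_cast le_top)
  have h2 := integrable_translate (integrable_sq h1.continuous (isTest_trial hL).supp) (cen d τ)
  have e : ∫ X, ‖trial N L X‖ ^ 2 = ∫ X, ‖trial N L (X - cen d τ)‖ ^ 2 :=
    (integral_translate (fun X => ‖trial N L X‖ ^ 2) (cen d τ)).symm
  rw [e, ← integral_const_mul]
  apply integral_mono (integrable_shift hL d τ (measurable_potV hV.measurable)
    (potV_bdd hV.nonneg hB)) (h2.const_mul _)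
  intro X
  by_cases h0 : trial N L (X - cen d τ) = 0
  · simp [h0]
  · have hnear := near_of_trial hL h0
    apply mul_le_mul_of_nonneg_right _ (by positivity)
    have hsq : 0 < (N : ℝ) ^ (1 / 2 : ℝ) := Real.rpow_pos_of_pos hN _
    have hsq' : 0 < (N : ℝ) ^ (-(1 / 2) : ℝ) := Real.rpow_pos_of_pos hN _
    have hmul : (N : ℝ) ^ (1 / 2 : ℝ) * (N : ℝ) ^ (-(1 / 2) : ℝ) = 1 := by
      rw [← Real.rpow_add hN]
      norm_num
    have hfar : ∀ i j, τ i ≠ τ j → ∃ a, R < |((N : ℝ) ^ (1 / 2 : ℝ) • (X i - X j)) a| := by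
      intro i j hij
      obtain ⟨a, ha⟩ := box_far (D := (R + 1) * (N : ℝ) ^ (-(1 / 2) : ℝ)) hL (by positivity) hd
        hnear hij
      refine ⟨a, ?_⟩
      rw [Pi.smul_apply, Pi.sub_apply, smul_eq_mul, abs_mul, abs_of_pos hsq]
      have h3 := mul_le_mul_of_nonneg_left ha hsq.le
      have h4 : (N : ℝ) ^ (1 / 2 : ℝ) * ((R + 1) * (N : ℝ) ^ (-(1 / 2) : ℝ)) = R + 1 := by
        calc _ = (R + 1) * ((N : ℝ) ^ (1 / 2 : ℝ) * (N : ℝ) ^ (-(1 / 2) : ℝ)) := by ring
          _ = _ := by rw [hmul, mul_one]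
      rw [h4] at h3
      linarith
    unfold potV nT
    rw [Finset.mul_sum]
    apply Finset.sum_le_sum
    intro i _
    rw [Finset.mul_sum]
    apply Finset.sum_le_sum
    intro j _
    rw [Finset.mul_sum]
    apply Finset.sum_le_sum
    intro k _
    by_cases h : i < j ∧ j < k
    · simp only [h, and_self, if_true]
      by_cases hV0 : V ((N : ℝ) ^ (1 / 2 : ℝ) • (X i - X j))
          ((N : ℝ) ^ (1 / 2 : ℝ) • (X i - X k)) = 0
      · rw [hV0, mul_zero]
        split_ifs <;> simp <;> positivity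
      · have hs := hsupp _ _ hV0
        have hij : τ i = τ j := by
          by_contra hne
          obtain ⟨a, ha⟩ := hfar i j hne
          exact absurd (hs a).1 (not_le.mpr ha)
        have hik : τ i = τ k := by
          by_contra hne
          obtain ⟨a, ha⟩ := hfar i k hne
          exact absurd (hs a).2 (not_le.mpr ha)
        rw [if_pos ⟨hij, hik⟩, mul_one]
        have hclose : ∀ l, τ i = τ l → ∀ a, |((N : ℝ) ^ (1 / 2 : ℝ) • (X i - X l)) a| ≤
            (N : ℝ) ^ (1 / 2 : ℝ) * (2 / L) := by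
          intro l hl a
          rw [Pi.smul_apply, Pi.sub_apply, smul_eq_mul, abs_mul, abs_of_pos hsq]
          apply mul_le_mul_of_nonneg_left _ hsq.le
          have e1 := hnear i a
          have e2 := hnear l a
          rw [hl] at e1
          rw [abs_le] at e1 e2 ⊢
          have e3 : 2 / L = 1 / L + 1 / L := by ring
          constructor <;> linarith [e1.1, e1.2, e2.1, e2.2]
        exact mul_le_mul_of_nonneg_left (hb _ _ (hclose j hij) (hclose k hik)) hN.le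
    · simp only [h, if_false, mul_zero]
      exact le_refl _

theorem triple_tau {V : (Fin 3 → ℝ) → (Fin 3 → ℝ) → ℝ} (hV : IsThreeBody V) {B R L d : ℝ}
    (hB : ∀ x y, V x y ≤ B) (hR : 0 ≤ R)
    (hsupp : ∀ x y, V x y ≠ 0 → ∀ a, |x a| ≤ R ∧ |y a| ≤ R) (hL : 0 < L) (hN : (0 : ℝ) < N)
    (hd : (R + 1) * (N : ℝ) ^ (-(1 / 2) : ℝ) + 2 / L ≤ d) (τ : Fin N → Fin 3 → Fin m) :
    ∫ X, potV N V X * ‖trial N L (X - cen d τ)‖ ^ 2 ≤
      (N : ℝ) * B * nT τ * ∫ X, ‖trial N L X‖ ^ 2 :=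
  triple_tau_loc hV hB (fun x y _ _ => hB x y) hR hsupp hL hN hd τ

/-- The energy of the trial function. -/
theorem energy_multi_loc {U : (Fin 3 → ℝ) → ℝ} (hU : IsTrap U)
    {V : (Fin 3 → ℝ) → (Fin 3 → ℝ) → ℝ} (hV : IsThreeBody V) {W : (Fin 3 → ℝ) → ℝ}
    (hW : IsPair W) {β K B b R BU d R1 : ℝ} (hK : 0 < K) (hB : ∀ x y, V x y ≤ B)
    (hb : ∀ x y, (∀ a, |x a| ≤ (N : ℝ) ^ (1 / 2 : ℝ) * (2 / ((N : ℝ) ^ β / K))) →
      (∀ a, |y a| ≤ (N : ℝ) ^ (1 / 2 : ℝ) * (2 / ((N : ℝ) ^ β / K))) → V x y ≤ b) (hR : 0 ≤ R)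
    (hsupp : ∀ x y, V x y ≠ 0 → ∀ a, |x a| ≤ R ∧ |y a| ≤ R)
    (hBU : ∀ᵐ x : Fin 3 → ℝ, len x ≤ 2 * R1 → |U x| ≤ BU) (hN : (0 : ℝ) < N) (hm : 0 < m)
    (hd : d = (R + 1) * (N : ℝ) ^ (-(1 / 2) : ℝ) + 2 / ((N : ℝ) ^ β / K))
    (hR1 : m * d + 1 / ((N : ℝ) ^ β / K) ≤ R1) :
    energy N β U V W (multi N m ((N : ℝ) ^ β / K) d) ≤
      (3 * N * (((N : ℝ) ^ β / K) ^ 2 * (kinB / massB)) + N * |BU| -
        (N : ℝ) ^ (3 * β - 1) * kap W K * cnt N / (m : ℝ) ^ 3 +
        (N : ℝ) * b * (N : ℝ) ^ 3 / ((m : ℝ) ^ 3) ^ 2) *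
      ∫ X, ‖multi N m ((N : ℝ) ^ β / K) d X‖ ^ 2 := by
  obtain ⟨BW, hBW⟩ := hW.bdd
  have hs : 0 < (N : ℝ) ^ β := Real.rpow_pos_of_pos hN _
  have hb0 : 0 ≤ b := by
    have h1 : 0 < (N : ℝ) ^ (1 / 2 : ℝ) := Real.rpow_pos_of_pos hN _
    exact (hV.nonneg 0 0).trans (hb 0 0 (fun a => by simp; positivity)
      (fun a => by simp; positivity))
  have ht : 0 < (N : ℝ) ^ (3 * β - 1) := Real.rpow_pos_of_pos hN _
  have hL : 0 < (N : ℝ) ^ β / K := div_pos hs hK
  have hsq' : 0 < (N : ℝ) ^ (-(1 / 2) : ℝ) := Real.rpow_pos_of_pos hN _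
  have hd2 : 2 / ((N : ℝ) ^ β / K) < d := by
    rw [hd]
    have : 0 < (R + 1) * (N : ℝ) ^ (-(1 / 2) : ℝ) := by positivity
    linarith
  have hd0 : 0 ≤ d := le_trans (by positivity) hd2.le
  set L := (N : ℝ) ^ β / K with hLd
  set ψ := multi N m L d with hψ
  have hψt : IsTest N ψ := isTest_multi hL hd0
  have hψ1 : ContDiff ℝ 1 ψ := hψt.smooth.of_le (by exact_mod_cast le_top)
  have hsqi := integrable_sq hψ1.continuous hψt.supp
  set M0 := ∫ X, ‖trial N L X‖ ^ 2 with hM0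
  have hM0n : 0 ≤ M0 := integral_nonneg fun X => by positivity
  have hmass : ∫ X, ‖ψ X‖ ^ 2 = ((m : ℝ) ^ 3) ^ N * M0 := multi_mass hL hd2
  set M := ∫ X, ‖ψ X‖ ^ 2 with hM
  have hMn : 0 ≤ M := integral_nonneg fun X => by positivity
  have hm3 : (0 : ℝ) < (m : ℝ) ^ 3 := by
    have : (0 : ℝ) < m := by exact_mod_cast hm
    positivity
  -- the external potential
  have hae : ∀ᵐ X : Cfg (Fin N), ∀ i, len (X i) ≤ 2 * R1 → |U (X i)| ≤ BU := by
    rw [volume_pi]
    rw [Filter.eventually_all]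
    intro i
    have hq : Measure.QuasiMeasurePreserving (Function.eval i)
        (Measure.pi fun _ : Fin N => (volume : Measure (Fin 3 → ℝ))) volume :=
      Measure.quasiMeasurePreserving_eval (fun _ : Fin N => (volume : Measure (Fin 3 → ℝ))) i
    exact hq.ae hBU
  have hR1n : 0 ≤ R1 := le_trans (by positivity) hR1
  have hlen : ∀ x : Fin 3 → ℝ, (∀ a, |x a| ≤ R1) → len x ≤ 2 * R1 := by
    intro x hx
    unfold len
    rw [Real.sqrt_le_left (by positivity)]
    have h1 : ∀ a, x a ^ 2 ≤ R1 ^ 2 := fun a => sq_le_sq' (abs_le.mp (hx a)).1 (abs_le.mp (hx a)).2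
    calc ∑ a, x a ^ 2 ≤ ∑ _a : Fin 3, R1 ^ 2 := Finset.sum_le_sum fun a _ => h1 a
      _ ≤ (2 * R1) ^ 2 := by
        simp
        nlinarith [sq_nonneg R1]
  have hUsum : ∀ᵐ X : Cfg (Fin N), ψ X ≠ 0 → |∑ i, U (X i)| ≤ N * |BU| := by
    filter_upwards [hae] with X hX hne
    calc |∑ i, U (X i)| ≤ ∑ i, |U (X i)| := Finset.abs_sum_le_sum_abs _ _
      _ ≤ ∑ _i : Fin N, |BU| := Finset.sum_le_sum fun i _ =>
          (hX i (hlen _ fun a => (multi_supp hL hd0 hne i a).trans hR1)).trans (le_abs_self BU)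
      _ = _ := by simp
  have hUm : Measurable fun X : Cfg (Fin N) => ∑ i, U (X i) := by
    apply Finset.measurable_fun_sum
    intro i _
    exact hU.measurable.comp (measurable_pi_apply i)
  have hUi : Integrable fun X : Cfg (Fin N) => (∑ i, U (X i)) * ‖ψ X‖ ^ 2 := by
    apply (hsqi.const_mul (N * |BU|)).mono'
    · exact (hUm.mul (by
          have := hψ1.continuous
          fun_prop)).aestronglyMeasurable
    · filter_upwards [hUsum] with X hX
      by_cases hne : ψ X = 0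
      · rw [hne]
        simp
      · rw [Real.norm_eq_abs, abs_mul, abs_of_nonneg (sq_nonneg ‖ψ X‖)]
        exact mul_le_mul_of_nonneg_right (hX hne) (sq_nonneg _)
  have hUint : ∫ X : Cfg (Fin N), (∑ i, U (X i)) * ‖ψ X‖ ^ 2 ≤ N * |BU| * M := by
    rw [hM, ← integral_const_mul]
    apply integral_mono_ae hUi (hsqi.const_mul _)
    filter_upwards [hUsum] with X hX
    by_cases hne : ψ X = 0
    · rw [hne]
      simp
    · exact mul_le_mul_of_nonneg_right ((le_abs_self _).trans (hX hne)) (sq_nonneg _)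
  -- the other parts
  have hWi : Integrable fun X : Cfg (Fin N) => potW N β W X * ‖ψ X‖ ^ 2 :=
    integrable_bdd hψ1.continuous hψt.supp (measurable_potW hW.measurable) (potW_bdd hBW)
  have hVi : Integrable fun X : Cfg (Fin N) => potV N V X * ‖ψ X‖ ^ 2 :=
    integrable_bdd hψ1.continuous hψt.supp (measurable_potV hV.measurable) (potV_bdd hV.nonneg hB)
  have hWint : ∫ X : Cfg (Fin N), potW N β W X * ‖ψ X‖ ^ 2 ≤
      -((N : ℝ) ^ (3 * β - 1) * kap W K * cnt N / (m : ℝ) ^ 3) * M := by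
    rw [hψ, integral_multi hL hd2 (measurable_potW hW.measurable) (potW_bdd hBW)]
    calc _ ≤ ∑ τ : Fin N → Fin 3 → Fin m,
          -((N : ℝ) ^ (3 * β - 1) * kap W K * nP τ) * M0 :=
          Finset.sum_le_sum fun τ _ => pair_tau hW hK hN τ
      _ = -((N : ℝ) ^ (3 * β - 1) * kap W K) *
          (∑ τ : Fin N → Fin 3 → Fin m, nP τ) * M0 := by
        rw [Finset.mul_sum, Finset.sum_mul]
        apply Finset.sum_congr rfl
        intro τ _
        ring
      _ = _ := by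
        have h1 : (∑ τ : Fin N → Fin 3 → Fin m, nP τ) =
            cnt N * ((m : ℝ) ^ 3) ^ N / (m : ℝ) ^ 3 := by
          rw [eq_div_iff hm3.ne', sum_nP]
        rw [h1, hmass]
        ring
  have hVint : ∫ X : Cfg (Fin N), potV N V X * ‖ψ X‖ ^ 2 ≤
      ((N : ℝ) * b * (N : ℝ) ^ 3 / ((m : ℝ) ^ 3) ^ 2) * M := by
    rw [hψ, integral_multi hL hd2 (measurable_potV hV.measurable) (potV_bdd hV.nonneg hB)]
    calc _ ≤ ∑ τ : Fin N → Fin 3 → Fin m, (N : ℝ) * b * nT τ * M0 :=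
          Finset.sum_le_sum fun τ _ => triple_tau_loc hV hB hb hR hsupp hL hN hd.ge τ
      _ = (N : ℝ) * b * (∑ τ : Fin N → Fin 3 → Fin m, nT τ) * M0 := by
        rw [Finset.mul_sum, Finset.sum_mul]
      _ ≤ (N : ℝ) * b * ((N : ℝ) ^ 3 * ((m : ℝ) ^ 3) ^ N / ((m : ℝ) ^ 3) ^ 2) * M0 := by
        have h1 : (∑ τ : Fin N → Fin 3 → Fin m, nT τ) ≤
            (N : ℝ) ^ 3 * ((m : ℝ) ^ 3) ^ N / ((m : ℝ) ^ 3) ^ 2 := by
          rw [le_div_iff₀ (by positivity)]
          exact sum_nT_le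
        gcongr
      _ = _ := by
        rw [hmass]
        ring
  have hkin : ∫ X, grad2 ψ X = 3 * N * (L ^ 2 * (kinB / massB)) * M := by
    rw [hψ, multi_kin hL hd2, hmass]
    ring
  have hen : energy N β U V W ψ = (∫ X, grad2 ψ X) +
      ((∫ X : Cfg (Fin N), (∑ i, U (X i)) * ‖ψ X‖ ^ 2) +
        (∫ X : Cfg (Fin N), potW N β W X * ‖ψ X‖ ^ 2) +
        ∫ X : Cfg (Fin N), potV N V X * ‖ψ X‖ ^ 2) := by
    have h1 : energy N β U V W ψ = ∫ X : Cfg (Fin N), (grad2 ψ X +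
        (((∑ i, U (X i)) * ‖ψ X‖ ^ 2 + potW N β W X * ‖ψ X‖ ^ 2) + potV N V X * ‖ψ X‖ ^ 2)) := by
      have h2 : energy N β U V W ψ = ∫ X : Cfg (Fin N), (grad2 ψ X +
        potential N β U V W X * ‖ψ X‖ ^ 2) := rfl
      rw [h2]
      apply integral_congr_ae
      filter_upwards with X
      have h3 : potential N β U V W X = (∑ i, U (X i)) + potW N β W X + potV N V X := rfl
      rw [h3]
      ring
    have hA : Integrable fun X : Cfg (Fin N) =>
        (∑ i, U (X i)) * ‖ψ X‖ ^ 2 + potW N β W X * ‖ψ X‖ ^ 2 := hUi.add hWi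
    have hA2 : Integrable fun X : Cfg (Fin N) =>
        (∑ i, U (X i)) * ‖ψ X‖ ^ 2 + potW N β W X * ‖ψ X‖ ^ 2 + potV N V X * ‖ψ X‖ ^ 2 :=
      hA.add hVi
    rw [h1, integral_add (integrable_grad2 hψ1 hψt.supp) hA2, integral_add hA hVi,
      integral_add hUi hWi]
  rw [hen, hkin]
  have e : (3 * N * (L ^ 2 * (kinB / massB)) + N * |BU| -
        (N : ℝ) ^ (3 * β - 1) * kap W K * cnt N / (m : ℝ) ^ 3 +
        (N : ℝ) * b * (N : ℝ) ^ 3 / ((m : ℝ) ^ 3) ^ 2) * M =
      3 * N * (L ^ 2 * (kinB / massB)) * M + ((N * |BU| * M +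
        -((N : ℝ) ^ (3 * β - 1) * kap W K * cnt N / (m : ℝ) ^ 3) * M) +
        ((N : ℝ) * b * (N : ℝ) ^ 3 / ((m : ℝ) ^ 3) ^ 2) * M) := by ring
  rw [e]
  linarith

theorem energy_multi {U : (Fin 3 → ℝ) → ℝ} (hU : IsTrap U)
    {V : (Fin 3 → ℝ) → (Fin 3 → ℝ) → ℝ} (hV : IsThreeBody V) {W : (Fin 3 → ℝ) → ℝ}
    (hW : IsPair W) {β K B R BU d R1 : ℝ} (hK : 0 < K) (hB : ∀ x y, V x y ≤ B) (hR : 0 ≤ R)
    (hsupp : ∀ x y, V x y ≠ 0 → ∀ a, |x a| ≤ R ∧ |y a| ≤ R)
    (hBU : ∀ᵐ x : Fin 3 → ℝ, len x ≤ 2 * R1 → |U x| ≤ BU) (hN : (0 : ℝ) < N) (hm : 0 < m)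
    (hd : d = (R + 1) * (N : ℝ) ^ (-(1 / 2) : ℝ) + 2 / ((N : ℝ) ^ β / K))
    (hR1 : m * d + 1 / ((N : ℝ) ^ β / K) ≤ R1) :
    energy N β U V W (multi N m ((N : ℝ) ^ β / K) d) ≤
      (3 * N * (((N : ℝ) ^ β / K) ^ 2 * (kinB / massB)) + N * |BU| -
        (N : ℝ) ^ (3 * β - 1) * kap W K * cnt N / (m : ℝ) ^ 3 +
        (N : ℝ) * B * (N : ℝ) ^ 3 / ((m : ℝ) ^ 3) ^ 2) *
      ∫ X, ‖multi N m ((N : ℝ) ^ β / K) d X‖ ^ 2 :=
  energy_multi_loc hU hV hW hK hB (fun x y _ _ => hB x y) hR hsupp hBU hN hm hd hR1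

theorem multi_mass_pos {L : ℝ} (hL : 0 < L) {d : ℝ} (hd : 2 / L < d) (hm : 0 < m) :
    0 < ∫ X, ‖multi N m L d X‖ ^ 2 := by
  rw [multi_mass hL hd, trial_mass hL]
  have h1 : (0 : ℝ) < m := by exact_mod_cast hm
  have h2 := massB_pos
  apply mul_pos (by positivity)
  apply Finset.prod_pos
  intro p _
  positivity

end Pool.Agent.H50.Bose3
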