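import Pool.Agent.H50.Bose3.Unst
import Pool.Agent.H98.Bose2.Classes

set_option autoImplicit false

/-!
# Hollow three-body potentials, `β > 1/2`
-/

namespace Pool.Agent.H50.Bose3

open MeasureTheory Set Pool.Agent.H50.Bose Pool.Agent.H98.Bose2

/-- For a hollow three-body potential and `β > 1/2` every nonzero attractive two-body interaction
makes the system unstable. -/
theorem unstable_hollow_every {β : ℝ} (hb : 1 / 2 < β) (hb1 : β ≤ 1) {U : (Fin 3 → ℝ) → ℝ}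
    (hU : IsTrap U) {V : (Fin 3 → ℝ) → (Fin 3 → ℝ) → ℝ} (hV : IsThreeBody V) (hh : IsHollow V)
    {W : (Fin 3 → ℝ) → ℝ} (hW : IsPair W) (hne : ¬ ∀ᵐ x, W x = 0) : ¬ Stable β U V W := by
  obtain ⟨K, hK, hkap⟩ := kap_pos hW hne
  obtain ⟨B, hB⟩ := hV.bdd
  obtain ⟨ρ, hρ, hhol⟩ := hh
  have hκ0 : 0 ≤ kinB / massB := div_nonneg kinB_nonneg massB_pos.le
  set κ := kinB / massB with hκ
  rintro ⟨C, hC0, hC⟩
  obtain ⟨R, hR, hsupp⟩ := supp_cube hV
  set R1 := R + 1 + 3 * K with hR1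
  obtain ⟨BU, hBU⟩ := hU.locBdd (2 * R1)
  set A := 4 * (3 * κ / K ^ 2 + 1) / kap W K with hA
  have hA0 : 0 < A := by positivity
  set D := 4 * K / ρ with hD
  have hD0 : 0 < D := by positivity
  obtain ⟨N, hN⟩ := exists_nat_gt (max (max 2 (A ^ 2)) (max (|BU| + C) (D ^ (1 / (β - 1 / 2)))))
  have hN2 : (2 : ℝ) < N := ((le_max_left _ _).trans (le_max_left _ _)).trans_lt hN
  have hNA : A ^ 2 < N := ((le_max_right _ _).trans (le_max_left _ _)).trans_lt hN
  have hNBC : |BU| + C < N := ((le_max_left _ _).trans (le_max_right _ _)).trans_lt hN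
  have hND : D ^ (1 / (β - 1 / 2)) < N := ((le_max_right _ _).trans (le_max_right _ _)).trans_lt hN
  have hN1 : 1 ≤ N := by
    have : (1 : ℝ) < N := by linarith
    exact_mod_cast this.le
  have hNpos : (0 : ℝ) < N := by linarith
  have hN1' : (1 : ℝ) ≤ N := by linarith
  set s := (N : ℝ) ^ β with hs
  have hspos : 0 < s := Real.rpow_pos_of_pos hNpos _
  have hs1 : 1 ≤ s := Real.one_le_rpow hN1' (by linarith)
  have hAs : A ≤ s := by
    have h1 : (N : ℝ) ^ (1 / 2 : ℝ) ≤ s := Real.rpow_le_rpow_of_exponent_le hN1' hb.le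
    have h2 : A ≤ (N : ℝ) ^ (1 / 2 : ℝ) := by
      rw [← Real.sqrt_eq_rpow]
      exact Real.le_sqrt_of_sq_le hNA.le
    exact h2.trans h1
  set L := s / K with hL
  have hLpos : 0 < L := div_pos hspos hK
  set r := (N : ℝ) ^ (-(1 / 2) : ℝ) with hr
  have hrpos : 0 < r := Real.rpow_pos_of_pos hNpos _
  have hr1 : r ≤ 1 := Real.rpow_le_one_of_one_le_of_nonpos hN1' (by norm_num)
  set d := (R + 1) * r + 2 / L with hd
  have hLinv : 1 / L = K / s := by rw [hL, one_div_div]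
  have hLK : 1 / L ≤ K := by
    rw [hLinv]
    exact div_le_self hK.le hs1
  have hmd : ((1 : ℕ) : ℝ) * d + 1 / L ≤ R1 := by
    have e : 2 / L = 2 * (1 / L) := by ring
    have h3 : (R + 1) * r ≤ R + 1 := by
      have : (R + 1) * r ≤ (R + 1) * 1 := by gcongr
      linarith
    rw [hd, hR1, e]
    push_cast
    linarith
  have hd2 : 2 / L < d := by
    rw [hd]
    have : 0 < (R + 1) * r := by positivity
    linarith
  have hloc : ∀ x y : Fin 3 → ℝ, (∀ a, |x a| ≤ (N : ℝ) ^ (1 / 2 : ℝ) * (2 / L)) →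
      (∀ a, |y a| ≤ (N : ℝ) ^ (1 / 2 : ℝ) * (2 / L)) → V x y ≤ 0 := by
    have hpow : D ≤ (N : ℝ) ^ (β - 1 / 2) := by
      calc D = (D ^ (1 / (β - 1 / 2))) ^ (β - 1 / 2) := by
            rw [← Real.rpow_mul hD0.le, one_div_mul_cancel (by linarith : β - 1 / 2 ≠ 0),
              Real.rpow_one]
        _ ≤ _ := Real.rpow_le_rpow (by positivity) hND.le (by linarith)
    have hsm : (N : ℝ) ^ (1 / 2 : ℝ) * (2 / L) ≤ ρ / 2 := by
      have e1 : (N : ℝ) ^ (1 / 2 : ℝ) * (2 / L) = 2 * K / (N : ℝ) ^ (β - 1 / 2) := by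
        rw [Real.rpow_sub hNpos, ← hs, hL]
        field_simp
      rw [e1, div_le_iff₀ (by positivity)]
      have h1 : ρ / 2 * D ≤ ρ / 2 * (N : ℝ) ^ (β - 1 / 2) := by gcongr
      have h2 : ρ / 2 * D = 2 * K := by
        rw [hD]
        field_simp
        ring
      linarith
    have hlen : ∀ x : Fin 3 → ℝ, (∀ a, |x a| ≤ (N : ℝ) ^ (1 / 2 : ℝ) * (2 / L)) → len x ≤ ρ := by
      intro x hx
      unfold len
      rw [Real.sqrt_le_left hρ.le]
      have h1 : ∀ a, x a ^ 2 ≤ (ρ / 2) ^ 2 := fun a =>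
        sq_le_sq' (abs_le.mp ((hx a).trans hsm)).1 (abs_le.mp ((hx a).trans hsm)).2
      calc ∑ a, x a ^ 2 ≤ ∑ _a : Fin 3, (ρ / 2) ^ 2 := Finset.sum_le_sum fun a _ => h1 a
        _ ≤ ρ ^ 2 := by
          simp
          nlinarith [sq_nonneg ρ]
    intro x y hx hy
    exact (hhol x y (hlen x hx) (hlen y hy)).le
  have hen := energy_multi_loc (N := N) (m := 1) (β := β) (K := K) (B := B) (b := 0) (R := R)
    (BU := BU) (d := d) (R1 := R1) hU hV hW hK hB hloc hR hsupp hBU hNpos one_pos rfl hmd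
  have htest : IsTest N (multi N 1 L d) := isTest_multi hLpos (le_trans (by positivity) hd2.le)
  have hstab := hC N hN1 _ htest
  have hmass : 0 < ∫ X, ‖multi N 1 L d X‖ ^ 2 := multi_mass_pos hLpos hd2 one_pos
  set M := ∫ X, ‖multi N 1 L d X‖ ^ 2 with hM
  have h1 := hstab.trans hen
  have h2 := le_of_mul_le_mul_right h1 hmass
  simp only [Nat.cast_one, one_pow, div_one, mul_zero, zero_mul, add_zero] at h2
  have hA' : (N : ℝ) ^ (1 + 2 * β) = N * s ^ 2 := by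
    rw [hs, ← Real.rpow_natCast ((N : ℝ) ^ β), ← Real.rpow_mul hNpos.le, Real.rpow_add hNpos,
      Real.rpow_one]
    congr 2
    push_cast
    ring
  have hk : 3 * N * (L ^ 2 * κ) = 3 * κ / K ^ 2 * (N : ℝ) ^ (1 + 2 * β) := by
    rw [hA', hL]
    field_simp
  have hcnt : (N : ℝ) ^ 2 ≤ 4 * cnt N := by
    have := two_cnt N
    nlinarith
  have hp : (3 * κ / K ^ 2 + 1) * (N : ℝ) ^ (1 + 2 * β) ≤
      (N : ℝ) ^ (3 * β - 1) * kap W K * cnt N := by
    have e1 : (N : ℝ) ^ (1 + 2 * β) * s = (N : ℝ) ^ (3 * β - 1) * (N : ℝ) ^ 2 := by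
      rw [hs, ← Real.rpow_add hNpos, ← Real.rpow_natCast (N : ℝ) 2, ← Real.rpow_add hNpos]
      congr 1
      push_cast
      ring
    have hq : 0 < (N : ℝ) ^ (1 + 2 * β) := Real.rpow_pos_of_pos hNpos _
    have ht : 0 < (N : ℝ) ^ (3 * β - 1) := Real.rpow_pos_of_pos hNpos _
    have e2 : 3 * κ / K ^ 2 + 1 = kap W K / 4 * A := by
      rw [hA]
      field_simp
    calc (3 * κ / K ^ 2 + 1) * (N : ℝ) ^ (1 + 2 * β) =
          kap W K / 4 * (N : ℝ) ^ (1 + 2 * β) * A := by rw [e2]; ring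
      _ ≤ kap W K / 4 * (N : ℝ) ^ (1 + 2 * β) * s := by gcongr
      _ = (N : ℝ) ^ (3 * β - 1) * kap W K * ((N : ℝ) ^ 2 / 4) := by
        rw [mul_assoc, e1]
        ring
      _ ≤ _ := by
        apply mul_le_mul_of_nonneg_left _ (by positivity)
        linarith
  have h3 : (N : ℝ) ^ 2 ≤ (N : ℝ) ^ (1 + 2 * β) := by
    rw [← Real.rpow_natCast]
    apply Real.rpow_le_rpow_of_exponent_le hN1'
    push_cast
    linarith
  have h4 : -C * N ≤ N * |BU| - (N : ℝ) ^ 2 := by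
    have e : (3 * κ / K ^ 2 + 1) * (N : ℝ) ^ (1 + 2 * β) =
        3 * κ / K ^ 2 * (N : ℝ) ^ (1 + 2 * β) + (N : ℝ) ^ (1 + 2 * β) := by ring
    rw [e] at hp
    rw [hk] at h2
    linarith
  nlinarith

end Pool.Agent.H50.Bose3
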