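import Pool.Agent.H50.Bose.Unstable

set_option autoImplicit false

/-!
# Trial functions made of many small boxes

`multi N m L d` is the sum of the translates of the one box trial function by all the vectors whose
coordinates are multiples `l d`, `l < m`. The summands have disjoint supports.
-/

namespace Pool.Agent.H50.Bose3

open MeasureTheory Set Pool.Agent.H50.Bose

theorem dbump_supp {x : ℝ} (h : deriv (fun x : ℝ => bump x) x ≠ 0) : |x| ≤ 1 := by
  have h1 : x ∈ tsupport (fun x : ℝ => bump x) := support_deriv_subset h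
  have h2 : tsupport (fun x : ℝ => bump x) = Metric.closedBall 0 1 := bump.tsupport_eq
  rw [h2, mem_closedBall_zero_iff, Real.norm_eq_abs] at h1
  exact h1

theorem normsq_sum {ι : Type*} [Fintype ι] (z : ι → ℂ)
    (h : ∀ i j, z i ≠ 0 → z j ≠ 0 → i = j) : ‖∑ i, z i‖ ^ 2 = ∑ i, ‖z i‖ ^ 2 := by
  classical
  by_cases h0 : ∃ i, z i ≠ 0
  · obtain ⟨i, hi⟩ := h0
    have h1 : ∀ j, j ≠ i → z j = 0 := by
      intro j hj
      by_contra h2
      exact hj (h j i h2 hi)
    rw [Finset.sum_eq_single i (fun j _ hj => h1 j hj) (by simp),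
      Finset.sum_eq_single i (fun j _ hj => by rw [h1 j hj]; simp) (by simp)]
  · push Not at h0
    simp [h0]

variable {N m : ℕ}

/-- The centre of the box with index `τ`. -/
noncomputable def cen (d : ℝ) (τ : Fin N → Fin 3 → Fin m) : Fin N → Fin 3 → ℝ :=
  fun i a => ((τ i a : ℕ) : ℝ) * d

/-- The trial function made of many boxes. -/
noncomputable def multi (N m : ℕ) (L d : ℝ) (X : Fin N → Fin 3 → ℝ) : ℂ :=
  ∑ τ : Fin N → Fin 3 → Fin m, trial N L (X - cen d τ)

theorem multi_contDiff (m : ℕ) (L d : ℝ) :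
    ContDiff ℝ ((⊤ : ℕ∞) : WithTop ℕ∞) (multi N m L d) := by
  unfold multi
  apply ContDiff.sum
  intro τ _
  apply (trial_contDiff L).comp
  fun_prop

theorem near_of_trial {L : ℝ} (hL : 0 < L) {d : ℝ} {τ : Fin N → Fin 3 → Fin m}
    {X : Fin N → Fin 3 → ℝ} (h : trial N L (X - cen d τ) ≠ 0) (i : Fin N) (a : Fin 3) :
    |X i a - ((τ i a : ℕ) : ℝ) * d| ≤ 1 / L :=
  trial_supp hL h i a

theorem near_of_fderiv {L : ℝ} (hL : 0 < L) {d : ℝ} {τ : Fin N → Fin 3 → Fin m}
    {X : Fin N → Fin 3 → ℝ} {p : Fin N × Fin 3}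
    (h : fderiv ℝ (trial N L) (X - cen d τ) (Pi.single p.1 (Pi.single p.2 1)) ≠ 0) (i : Fin N)
    (a : Fin 3) : |X i a - ((τ i a : ℕ) : ℝ) * d| ≤ 1 / L := by
  rw [trial_fderiv, Ne, Complex.ofReal_eq_zero, mul_eq_zero, mul_eq_zero] at h
  push Not at h
  obtain ⟨h1, h2, _⟩ := h
  have key : |L * (X - cen d τ) i a| ≤ 1 := by
    by_cases hp : (i, a) = p
    · subst hp
      exact dbump_supp h2
    · rw [Finset.prod_ne_zero_iff] at h1
      exact bump_supp (h1 (i, a) (Finset.mem_erase.mpr ⟨hp, Finset.mem_univ _⟩))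
  rw [abs_mul, abs_of_pos hL] at key
  rw [le_div_iff₀ hL]
  have e : (X - cen d τ) i a = X i a - ((τ i a : ℕ) : ℝ) * d := rfl
  rw [e] at key
  linarith

theorem index_unique {L : ℝ} (hL : 0 < L) {d : ℝ} (hd : 2 / L < d)
    {τ τ' : Fin N → Fin 3 → Fin m} {X : Fin N → Fin 3 → ℝ}
    (h : ∀ i a, |X i a - ((τ i a : ℕ) : ℝ) * d| ≤ 1 / L)
    (h' : ∀ i a, |X i a - ((τ' i a : ℕ) : ℝ) * d| ≤ 1 / L) : τ = τ' := by
  funext i a
  have h1 := h i a
  have h2 := h' i a
  rw [abs_le] at h1 h2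
  have hd0 : 0 < d := lt_trans (by positivity) hd
  have e : 2 / L = 1 / L + 1 / L := by ring
  apply Fin.ext
  by_contra hne
  rcases Nat.lt_or_gt_of_ne hne with h3 | h3
  · have h4 : ((τ i a : ℕ) : ℝ) + 1 ≤ ((τ' i a : ℕ) : ℝ) := by exact_mod_cast h3
    nlinarith
  · have h4 : ((τ' i a : ℕ) : ℝ) + 1 ≤ ((τ i a : ℕ) : ℝ) := by exact_mod_cast h3
    nlinarith

/-- Different boxes are far apart. -/
theorem box_far {L : ℝ} {d D : ℝ} (hL : 0 < L) (hD : 0 ≤ D) (hd : D + 2 / L ≤ d)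
    {τ : Fin N → Fin 3 → Fin m} {X : Fin N → Fin 3 → ℝ}
    (h : ∀ i a, |X i a - ((τ i a : ℕ) : ℝ) * d| ≤ 1 / L) {i j : Fin N} (hij : τ i ≠ τ j) :
    ∃ a, D ≤ |X i a - X j a| := by
  have hex : ∃ a, τ i a ≠ τ j a := by
    by_contra h0
    push Not at h0
    exact hij (funext h0)
  obtain ⟨a, ha⟩ := hex
  refine ⟨a, ?_⟩
  have hne : ((τ i a : ℕ)) ≠ (τ j a : ℕ) := fun h0 => ha (Fin.ext h0)
  have h1 := h i a
  have h2 := h j a
  rw [abs_le] at h1 h2
  have hLi : 0 < 1 / L := by positivity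
  have e : 2 / L = 1 / L + 1 / L := by ring
  have hd0 : 0 ≤ d := by linarith
  rw [le_abs]
  rcases Nat.lt_or_gt_of_ne hne with h3 | h3
  · right
    have h4 : ((τ i a : ℕ) : ℝ) + 1 ≤ ((τ j a : ℕ) : ℝ) := by exact_mod_cast h3
    nlinarith
  · left
    have h4 : ((τ j a : ℕ) : ℝ) + 1 ≤ ((τ i a : ℕ) : ℝ) := by exact_mod_cast h3
    nlinarith

theorem multi_sq {L : ℝ} (hL : 0 < L) {d : ℝ} (hd : 2 / L < d) (X : Fin N → Fin 3 → ℝ) :
    ‖multi N m L d X‖ ^ 2 = ∑ τ : Fin N → Fin 3 → Fin m, ‖trial N L (X - cen d τ)‖ ^ 2 := by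
  unfold multi
  apply normsq_sum
  intro τ τ' h h'
  exact index_unique hL hd (near_of_trial hL h) (near_of_trial hL h')

theorem multi_fderiv (L d : ℝ) (X : Fin N → Fin 3 → ℝ) (v : Fin N → Fin 3 → ℝ) :
    fderiv ℝ (multi N m L d) X v =
      ∑ τ : Fin N → Fin 3 → Fin m, fderiv ℝ (trial N L) (X - cen d τ) v := by
  have h1 : ∀ τ : Fin N → Fin 3 → Fin m,
      HasFDerivAt (fun X => trial N L (X - cen d τ)) (fderiv ℝ (trial N L) (X - cen d τ)) X := by
    intro τ
    have h2 : HasFDerivAt (trial N L) (fderiv ℝ (trial N L) (X - cen d τ)) (X - cen d τ) :=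
      (((trial_contDiff L).differentiable (by simp)) _).hasFDerivAt
    exact (hasFDerivAt_comp_sub _).mpr h2
  have h2 : HasFDerivAt (multi N m L d) (∑ τ : Fin N → Fin 3 → Fin m,
      fderiv ℝ (trial N L) (X - cen d τ)) X := by
    unfold multi
    exact HasFDerivAt.fun_sum fun τ _ => h1 τ
  rw [h2.fderiv, sum_apply]

theorem multi_grad {L : ℝ} (hL : 0 < L) {d : ℝ} (hd : 2 / L < d) (X : Fin N → Fin 3 → ℝ) :
    grad2 (multi N m L d) X =
      ∑ τ : Fin N → Fin 3 → Fin m, grad2 (trial N L) (X - cen d τ) := by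
  unfold grad2
  conv_rhs => rw [Finset.sum_comm]
  apply Finset.sum_congr rfl
  intro i _
  conv_rhs => rw [Finset.sum_comm]
  apply Finset.sum_congr rfl
  intro a _
  rw [multi_fderiv]
  apply normsq_sum
  intro τ τ' h h'
  exact index_unique hL hd (near_of_fderiv (p := (i, a)) hL h) (near_of_fderiv (p := (i, a)) hL h')

theorem cen_bound {d : ℝ} (hd : 0 ≤ d) (τ : Fin N → Fin 3 → Fin m) (i : Fin N) (a : Fin 3) :
    0 ≤ cen d τ i a ∧ cen d τ i a ≤ m * d := by
  unfold cen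
  have h1 : ((τ i a : ℕ) : ℝ) ≤ m := by exact_mod_cast (τ i a).isLt.le
  constructor
  · positivity
  · exact mul_le_mul_of_nonneg_right h1 hd

theorem multi_supp {L : ℝ} (hL : 0 < L) {d : ℝ} (hd : 0 ≤ d) {X : Fin N → Fin 3 → ℝ}
    (h : multi N m L d X ≠ 0) (i : Fin N) (a : Fin 3) : |X i a| ≤ m * d + 1 / L := by
  unfold multi at h
  obtain ⟨τ, _, hτ⟩ := Finset.exists_ne_zero_of_sum_ne_zero h
  have h1 := near_of_trial hL hτ i a
  have h2 := cen_bound hd τ i a
  unfold cen at h2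
  rw [abs_le] at h1 ⊢
  have : 0 < 1 / L := by positivity
  constructor <;> linarith [h2.1, h2.2]

theorem isTest_multi {L : ℝ} (hL : 0 < L) {d : ℝ} (hd : 0 ≤ d) : IsTest N (multi N m L d) where
  smooth := multi_contDiff m L d
  supp := by
    apply HasCompactSupport.intro
      (isCompact_closedBall (0 : Fin N → Fin 3 → ℝ) (m * d + 1 / L))
    intro X hX
    by_contra h
    apply hX
    have h0 : 0 ≤ m * d + 1 / L := by positivity
    rw [mem_closedBall_zero_iff, pi_norm_le_iff_of_nonneg h0]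
    intro i
    rw [pi_norm_le_iff_of_nonneg h0]
    intro a
    rw [Real.norm_eq_abs]
    exact multi_supp hL hd h i a
  symm := by
    intro σ X
    unfold multi
    have h1 : ∀ τ : Fin N → Fin 3 → Fin m,
        trial N L ((fun i => X (σ i)) - cen d τ) = trial N L (X - cen d (fun i => τ (σ.symm i))) := by
      intro τ
      rw [← (isTest_trial hL).symm σ (X - cen d (fun i => τ (σ.symm i)))]
      congr 1
      funext i a
      simp [cen]
    simp_rw [h1]
    exact Equiv.sum_comp (Equiv.arrowCongr σ (Equiv.refl (Fin 3 → Fin m)))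
      (fun τ => trial N L (X - cen d τ))

/-- Integrals of a function against the square of a translate. -/
theorem integral_translate (F : (Fin N → Fin 3 → ℝ) → ℝ) (c : Fin N → Fin 3 → ℝ) :
    ∫ X, F (X - c) = ∫ X, F X :=
  integral_sub_right_eq_self F c

theorem integrable_translate {F : (Fin N → Fin 3 → ℝ) → ℝ} (hF : Integrable F)
    (c : Fin N → Fin 3 → ℝ) : Integrable fun X => F (X - c) :=
  hF.comp_sub_right c

theorem card_tau : (Fintype.card (Fin N → Fin 3 → Fin m) : ℝ) = ((m : ℝ) ^ 3) ^ N := by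
  simp

theorem multi_mass {L : ℝ} (hL : 0 < L) {d : ℝ} (hd : 2 / L < d) :
    ∫ X, ‖multi N m L d X‖ ^ 2 = ((m : ℝ) ^ 3) ^ N * ∫ X, ‖trial N L X‖ ^ 2 := by
  have h1 : ContDiff ℝ 1 (trial N L) := (trial_contDiff L).of_le (by exact_mod_cast le_top)
  have h2 := integrable_sq h1.continuous (isTest_trial hL).supp
  simp_rw [multi_sq hL hd]
  rw [integral_finsetSum _ fun τ _ => integrable_translate h2 (cen d τ)]
  have h3 : ∀ τ : Fin N → Fin 3 → Fin m, ∫ X, ‖trial N L (X - cen d τ)‖ ^ 2 =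
      ∫ X, ‖trial N L X‖ ^ 2 := fun τ =>
    integral_translate (fun X => ‖trial N L X‖ ^ 2) (cen d τ)
  simp_rw [h3]
  rw [Finset.sum_const, Finset.card_univ, nsmul_eq_mul, card_tau]

theorem trial_grad {L : ℝ} (hL : 0 < L) :
    ∫ X, grad2 (trial N L) X = 3 * N * (L ^ 2 * (kinB / massB) * ∫ X, ‖trial N L X‖ ^ 2) := by
  have hψ1 : ContDiff ℝ 1 (trial N L) := (trial_contDiff L).of_le (by exact_mod_cast le_top)
  have hψs := (isTest_trial (N := N) hL).supp
  unfold grad2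
  rw [integral_finsetSum]
  · have h1 : ∀ i : Fin N, ∫ X : Cfg (Fin N), ∑ a : Fin 3,
        ‖fderiv ℝ (trial N L) X (Pi.single i (Pi.single a 1))‖ ^ 2 =
          3 * (L ^ 2 * (kinB / massB) * ∫ X, ‖trial N L X‖ ^ 2) := by
      intro i
      rw [integral_finsetSum]
      · have h2 : ∀ a : Fin 3, ∫ X : Cfg (Fin N),
            ‖fderiv ℝ (trial N L) X (Pi.single i (Pi.single a 1))‖ ^ 2 =
              L ^ 2 * (kinB / massB) * ∫ X, ‖trial N L X‖ ^ 2 := fun a =>
          trial_kin hL (i, a)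
        simp_rw [h2]
        simp
      · intro a _
        apply Continuous.integrable_of_hasCompactSupport
        · have h1 := hψ1.continuous_fderiv one_ne_zero
          fun_prop
        · have h1 : (fun X => ‖fderiv ℝ (trial N L) X (Pi.single i (Pi.single a 1))‖ ^ 2) =
            (fun L : Cfg (Fin N) →L[ℝ] ℂ => ‖L (Pi.single i (Pi.single a 1))‖ ^ 2) ∘
              (fderiv ℝ (trial N L)) := rfl
          rw [h1]
          exact (hψs.fderiv ℝ).comp_left (by simp)
    simp_rw [h1]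
    simp
    ring
  · intro i _
    apply Continuous.integrable_of_hasCompactSupport
    · have h1 := hψ1.continuous_fderiv one_ne_zero
      fun_prop
    · have h1 : (fun X => ∑ a : Fin 3,
          ‖fderiv ℝ (trial N L) X (Pi.single i (Pi.single a 1))‖ ^ 2) =
        (fun L : Cfg (Fin N) →L[ℝ] ℂ => ∑ a : Fin 3, ‖L (Pi.single i (Pi.single a 1))‖ ^ 2) ∘
          (fderiv ℝ (trial N L)) := rfl
      rw [h1]
      exact (hψs.fderiv ℝ).comp_left (by simp)

theorem multi_kin {L : ℝ} (hL : 0 < L) {d : ℝ} (hd : 2 / L < d) :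
    ∫ X, grad2 (multi N m L d) X = ((m : ℝ) ^ 3) ^ N *
      (3 * N * (L ^ 2 * (kinB / massB) * ∫ X, ‖trial N L X‖ ^ 2)) := by
  have h1 : ContDiff ℝ 1 (trial N L) := (trial_contDiff L).of_le (by exact_mod_cast le_top)
  have h2 := integrable_grad2 h1 (isTest_trial hL).supp
  simp_rw [multi_grad hL hd]
  rw [integral_finsetSum _ fun τ _ => integrable_translate h2 (cen d τ)]
  have h3 : ∀ τ : Fin N → Fin 3 → Fin m, ∫ X, grad2 (trial N L) (X - cen d τ) =
      ∫ X, grad2 (trial N L) X := fun τ => integral_translate (grad2 (trial N L)) (cen d τ)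
  simp_rw [h3]
  rw [Finset.sum_const, Finset.card_univ, nsmul_eq_mul, card_tau, trial_grad hL]

end Pool.Agent.H50.Bose3
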