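import Pool.Agent.H50.Bose3.Count

set_option autoImplicit false

/-!
# The interaction of two particles in the same box
-/

namespace Pool.Agent.H50.Bose3

open MeasureTheory Set Pool.Agent.H50.Bose

/-- The square of the one particle function of radius `K`. -/
noncomputable def rho (K : ℝ) (x : Fin 3 → ℝ) : ℝ := ∏ a, bump (K⁻¹ * x a) ^ 2

theorem continuous_rho (K : ℝ) : Continuous (rho K) := by
  unfold rho
  have := bump.continuous
  fun_prop

theorem rho_nonneg (K : ℝ) (x : Fin 3 → ℝ) : 0 ≤ rho K x := by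
  unfold rho
  positivity

theorem bump_le_one (x : ℝ) : bump x ≤ 1 := bump.le_one

theorem rho_le_one (K : ℝ) (x : Fin 3 → ℝ) : rho K x ≤ 1 := by
  unfold rho
  apply Finset.prod_le_one
  · intro a _
    positivity
  · intro a _
    have h1 := bump_le_one (K⁻¹ * x a)
    have h0 : 0 ≤ bump (K⁻¹ * x a) := bump.nonneg
    nlinarith

theorem rho_supp {K : ℝ} (hK : 0 < K) {x : Fin 3 → ℝ} (h : rho K x ≠ 0) (a : Fin 3) :
    |x a| ≤ K := by
  unfold rho at h
  rw [Finset.prod_ne_zero_iff] at h
  have h1 : bump (K⁻¹ * x a) ≠ 0 := by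
    intro h2
    apply h a (Finset.mem_univ _)
    rw [h2]
    norm_num
  have h2 := bump_supp h1
  rw [abs_mul, abs_of_pos (inv_pos.mpr hK), inv_mul_le_iff₀ hK, mul_one] at h2
  exact h2

theorem rho_one {K : ℝ} (hK : 0 < K) {x : Fin 3 → ℝ} (h : ∀ a, |x a| ≤ K / 2) : rho K x = 1 := by
  unfold rho
  apply Finset.prod_eq_one
  intro a _
  have h1 : bump (K⁻¹ * x a) = 1 := by
    apply bump.one_of_mem_closedBall
    rw [mem_closedBall_zero_iff, Real.norm_eq_abs, abs_mul, abs_of_pos (inv_pos.mpr hK),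
      inv_mul_le_iff₀ hK]
    have := h a
    have e : bump.rIn = 1 / 2 := rfl
    rw [e]
    linarith
  rw [h1, one_pow]

theorem rho_compact {K : ℝ} (hK : 0 < K) : HasCompactSupport (rho K) := by
  apply HasCompactSupport.intro (isCompact_closedBall (0 : Fin 3 → ℝ) K)
  intro x hx
  by_contra h
  apply hx
  rw [mem_closedBall_zero_iff, pi_norm_le_iff_of_nonneg hK.le]
  intro a
  rw [Real.norm_eq_abs]
  exact rho_supp hK h a

theorem integrable_rho {K : ℝ} (hK : 0 < K) : Integrable (rho K) :=
  (continuous_rho K).integrable_of_hasCompactSupport (rho_compact hK)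

theorem integral_rho_pos {K : ℝ} (hK : 0 < K) : 0 < ∫ x, rho K x := by
  apply Continuous.integral_pos_of_hasCompactSupport_nonneg_nonzero (x := 0)
    (continuous_rho K) (rho_compact hK) (rho_nonneg K)
  rw [rho_one hK]
  · norm_num
  · intro a
    simp
    positivity

/-- Integral over all configurations of a function of two particles against a product. -/
theorem marg {n : ℕ} {F : (Fin 3 → ℝ) → (Fin 3 → ℝ) → ℝ} (hF : Measurable (Function.uncurry F))
    {B : ℝ} (hB : ∀ x y, |F x y| ≤ B) {ρ : (Fin 3 → ℝ) → ℝ} (hρ : Integrable ρ)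
    (i : Fin (n + 1)) (j : Fin n) :
    ∫ X : Fin (n + 1) → Fin 3 → ℝ, F (X i) (X (i.succAbove j)) * ∏ l, ρ (X l) =
      (∫ x, ∫ y, F x y * (ρ x * ρ y)) * (∫ x, ρ x) ^ (n - 1) := by
  have hmp := volume_preserving_piFinSuccAbove (fun _ : Fin (n + 1) => Fin 3 → ℝ) i
  have hpr : Integrable fun X : Fin (n + 1) → Fin 3 → ℝ => ∏ l, ρ (X l) :=
    Integrable.fintype_prod (f := fun _ : Fin (n + 1) => ρ) (fun _ => hρ)
  have hpm : Measurable fun X : Fin (n + 1) → Fin 3 → ℝ => (X i, X (i.succAbove j)) := by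
    fun_prop
  have hFm : Measurable fun X : Fin (n + 1) → Fin 3 → ℝ => F (X i) (X (i.succAbove j)) :=
    hF.comp hpm
  have hint : Integrable fun X : Fin (n + 1) → Fin 3 → ℝ =>
      F (X i) (X (i.succAbove j)) * ∏ l, ρ (X l) := by
    apply hpr.bdd_mul (c := B) hFm.aestronglyMeasurable
    exact Filter.Eventually.of_forall fun X => by
      rw [Real.norm_eq_abs]
      exact hB _ _
  set e := MeasurableEquiv.piFinSuccAbove (fun _ : Fin (n + 1) => Fin 3 → ℝ) i with he
  set G : (Fin 3 → ℝ) × (Fin n → Fin 3 → ℝ) → ℝ := fun p =>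
    F p.1 (p.2 j) * (ρ p.1 * ∏ l, ρ (p.2 l)) with hG
  have hGe : (fun X : Fin (n + 1) → Fin 3 → ℝ => F (X i) (X (i.succAbove j)) * ∏ l, ρ (X l)) =
      G ∘ e := by
    funext X
    simp only [hG, he, Function.comp_apply]
    rw [Fin.prod_univ_succAbove (fun l => ρ (X l)) i]
    rfl
  have hGi : Integrable G := by
    rw [← hmp.integrable_comp_emb e.measurableEmbedding, ← hGe]
    exact hint
  rw [hGe]
  have h1 : ∫ X, (G ∘ e) X = ∫ p, G p := hmp.integral_comp' (g := G)
  rw [h1]
  rw [Measure.volume_eq_prod] at hGi ⊢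
  rw [integral_prod _ hGi, ← integral_mul_const]
  apply integral_congr_ae
  filter_upwards with x
  have h2 : (fun Y : Fin n → Fin 3 → ℝ => G (x, Y)) = fun Y =>
      ρ x * ∏ l, (if l = j then (fun y => F x y * ρ y) else ρ) (Y l) := by
    funext Y
    simp only [hG]
    rw [← Finset.mul_prod_erase Finset.univ (fun l => ρ (Y l)) (Finset.mem_univ j),
      ← Finset.mul_prod_erase Finset.univ
        (fun l => (if l = j then (fun y => F x y * ρ y) else ρ) (Y l)) (Finset.mem_univ j)]
    have h3 : ∏ l ∈ Finset.univ.erase j, (if l = j then (fun y => F x y * ρ y) else ρ) (Y l) =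
        ∏ l ∈ Finset.univ.erase j, ρ (Y l) := by
      apply Finset.prod_congr rfl
      intro l hl
      rw [if_neg (Finset.ne_of_mem_erase hl)]
    rw [h3, if_pos rfl]
    ring
  rw [h2, integral_const_mul]
  have h4 := integral_fintype_prod_eq_prod (𝕜 := ℝ) (ι := Fin n) (E := fun _ => Fin 3 → ℝ)
    (fun l => (if l = j then (fun y => F x y * ρ y) else ρ)) (μ := fun _ => volume)
  rw [← volume_pi] at h4
  rw [h4, ← Finset.mul_prod_erase Finset.univ _ (Finset.mem_univ j), if_pos rfl]
  have h5 : ∏ l ∈ Finset.univ.erase j, ∫ y, (if l = j then (fun y => F x y * ρ y) else ρ) y =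
      (∫ y, ρ y) ^ (n - 1) := by
    rw [Finset.prod_congr rfl (g := fun _ => ∫ y, ρ y)]
    · rw [Finset.prod_const, Finset.card_erase_of_mem (Finset.mem_univ _), Finset.card_univ,
        Fintype.card_fin]
    · intro l hl
      rw [if_neg (Finset.ne_of_mem_erase hl)]
  rw [h5, ← mul_assoc, ← integral_const_mul]
  congr 1
  apply integral_congr_ae
  filter_upwards with y
  ring

theorem integral_prod_rho {n : ℕ} (ρ : (Fin 3 → ℝ) → ℝ) :
    ∫ X : Fin n → Fin 3 → ℝ, ∏ l, ρ (X l) = (∫ x, ρ x) ^ n := by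
  have h4 := integral_fintype_prod_eq_prod (𝕜 := ℝ) (ι := Fin n) (E := fun _ => Fin 3 → ℝ)
    (fun _ => ρ) (μ := fun _ => volume)
  rw [← volume_pi] at h4
  rw [h4]
  simp

/-- The strength of the interaction of two particles in a box. -/
noncomputable def kap (W : (Fin 3 → ℝ) → ℝ) (K : ℝ) : ℝ :=
  -(∫ x, ∫ y, W (x - y) * (rho K x * rho K y)) / (∫ x, rho K x) ^ 2

theorem trial_sq {N : ℕ} (K s : ℝ) (X : Fin N → Fin 3 → ℝ) :
    ‖trial N (s / K) X‖ ^ 2 = ∏ i, rho K (s • X i) := by
  unfold trial rho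
  rw [Complex.norm_real, Real.norm_eq_abs, sq_abs, ← Finset.prod_pow, Fintype.prod_prod_type]
  apply Finset.prod_congr rfl
  intro i _
  apply Finset.prod_congr rfl
  intro a _
  simp only [Pi.smul_apply, smul_eq_mul]
  congr 2
  rw [div_eq_inv_mul]
  ring

theorem pair_val {N : ℕ} {W : (Fin 3 → ℝ) → ℝ} (hW : IsPair W) {K : ℝ} (hK : 0 < K) {s : ℝ}
    (hs : 0 < s) {i j : Fin N} (hij : i ≠ j) :
    ∫ X, W (s • (X i - X j)) * ‖trial N (s / K) X‖ ^ 2 =
      -kap W K * ∫ X, ‖trial N (s / K) X‖ ^ 2 := by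
  obtain ⟨n, rfl⟩ : ∃ n, N = n + 1 := ⟨N - 1, by have := i.pos; omega⟩
  obtain ⟨j', rfl⟩ := Fin.exists_succAbove_eq hij.symm
  have hn : 1 ≤ n := by have := j'.pos; omega
  obtain ⟨B, hB⟩ := hW.bdd
  set ρ : (Fin 3 → ℝ) → ℝ := fun x => rho K (s • x) with hρ
  have hρi : Integrable ρ := (integrable_rho hK).comp_smul hs.ne'
  have h1 := marg (n := n) (F := fun x y => W (s • (x - y))) (by
      have h2 : Measurable fun p : (Fin 3 → ℝ) × (Fin 3 → ℝ) => s • (p.1 - p.2) := by fun_prop
      exact hW.measurable.comp h2) (B := B) (fun x y => hB _) hρi i j'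
  have h2 : ∀ X : Fin (n + 1) → Fin 3 → ℝ, ‖trial (n + 1) (s / K) X‖ ^ 2 = ∏ l, ρ (X l) :=
    fun X => trial_sq K s X
  simp_rw [h2]
  rw [h1, integral_prod_rho]
  set S := ∫ x, rho K x with hS
  have hSpos : 0 < S := integral_rho_pos hK
  have hscale : ∀ f : (Fin 3 → ℝ) → ℝ, ∫ x, f (s • x) = (s ^ 3)⁻¹ * ∫ x, f x := by
    intro f
    rw [Measure.integral_comp_smul]
    simp [abs_of_pos hs]
  have h3 : ∫ x, ρ x = (s ^ 3)⁻¹ * S := hscale (rho K)
  have h4 : (∫ x, ∫ y, W (s • (x - y)) * (ρ x * ρ y)) =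
      (s ^ 3)⁻¹ * ((s ^ 3)⁻¹ * ∫ x, ∫ y, W (x - y) * (rho K x * rho K y)) := by
    have h5 : ∀ x, ∫ y, W (s • (x - y)) * (ρ x * ρ y) =
        (s ^ 3)⁻¹ * ∫ y, W (s • x - y) * (rho K (s • x) * rho K y) := by
      intro x
      rw [← hscale (fun y => W (s • x - y) * (rho K (s • x) * rho K y))]
      apply integral_congr_ae
      filter_upwards with y
      rw [smul_sub]
    simp_rw [h5]
    rw [integral_const_mul]
    congr 1
    exact hscale (fun x => ∫ y, W (x - y) * (rho K x * rho K y))
  rw [h3, h4]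
  unfold kap
  rw [← hS]
  generalize (∫ x, ∫ y, W (x - y) * (rho K x * rho K y)) = J
  have e : (s ^ 3)⁻¹ ≠ 0 := by positivity
  obtain ⟨k, hk⟩ : ∃ k, n = k + 1 := ⟨n - 1, by omega⟩
  have e1 : n - 1 = k := by omega
  have e2 : n + 1 = k + 2 := by omega
  rw [e1, e2]
  generalize (s ^ 3)⁻¹ = c at *
  rw [pow_add]
  field_simp

theorem supp_box {W : (Fin 3 → ℝ) → ℝ} (hW : IsPair W) : ∃ R : ℝ, 0 < R ∧
    ∀ z, W z ≠ 0 → ∀ a, |z a| ≤ R := by
  obtain ⟨R, hR⟩ := hW.supp.isCompact.isBounded.exists_norm_le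
  refine ⟨max R 1, by positivity, fun z hz a => ?_⟩
  have h1 := hR z (subset_tsupport W hz)
  have h2 : ‖z a‖ ≤ ‖z‖ := norm_le_pi_norm z a
  rw [Real.norm_eq_abs] at h2
  exact (h2.trans h1).trans (le_max_left _ _)

theorem integrable_pair {W : (Fin 3 → ℝ) → ℝ} (hW : IsPair W) : Integrable W := by
  obtain ⟨B, hB⟩ := hW.bdd
  obtain ⟨R, hR, hsupp⟩ := supp_box hW
  have h1 : Integrable ((Metric.closedBall (0 : Fin 3 → ℝ) R).indicator fun _ => B) := by
    rw [integrable_indicator_iff Metric.isClosed_closedBall.measurableSet]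
    exact integrableOn_const measure_closedBall_lt_top.ne
  apply h1.mono' hW.measurable.aestronglyMeasurable
  filter_upwards with x
  by_cases hx : x ∈ Metric.closedBall (0 : Fin 3 → ℝ) R
  · rw [indicator_of_mem hx, Real.norm_eq_abs]
    exact hB x
  · rw [indicator_of_notMem hx]
    have : W x = 0 := by
      by_contra h
      apply hx
      rw [mem_closedBall_zero_iff, pi_norm_le_iff_of_nonneg hR.le]
      intro a
      rw [Real.norm_eq_abs]
      exact hsupp x h a
    rw [this]
    simp

theorem kap_pos {W : (Fin 3 → ℝ) → ℝ} (hW : IsPair W) (hne : ¬ ∀ᵐ x, W x = 0) :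
    ∃ K : ℝ, 0 < K ∧ 0 < kap W K := by
  obtain ⟨R, hR, hsupp⟩ := supp_box hW
  obtain ⟨B, hB⟩ := hW.bdd
  have hWi := integrable_pair hW
  set I := ∫ x, -W x with hI
  have hIpos : 0 < I := by
    have h0 : 0 ≤ I := integral_nonneg fun x => by
      have := hW.nonpos x
      simp only [Pi.zero_apply]
      linarith
    refine lt_of_le_of_ne h0 fun h => hne ?_
    have h1 := (integral_eq_zero_iff_of_nonneg (f := fun x => -W x) (fun x => by
      have := hW.nonpos x
      show 0 ≤ -W x
      linarith) hWi.neg).mp h.symm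
    filter_upwards [h1] with x hx
    have : -W x = 0 := hx
    linarith
  set K := 4 * R with hK
  have hKpos : 0 < K := by positivity
  refine ⟨K, hKpos, ?_⟩
  unfold kap
  apply div_pos _ (by have := integral_rho_pos hKpos; positivity)
  have hρi := integrable_rho hKpos
  have hHi : Integrable (fun p : (Fin 3 → ℝ) × (Fin 3 → ℝ) =>
      W (p.1 - p.2) * (rho K p.1 * rho K p.2)) (volume.prod volume) := by
    apply (hρi.mul_prod hρi).bdd_mul (c := B)
    · have h2 : Measurable fun p : (Fin 3 → ℝ) × (Fin 3 → ℝ) => p.1 - p.2 := by fun_prop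
      exact (hW.measurable.comp h2).aestronglyMeasurable
    · exact Filter.Eventually.of_forall fun p => by
        rw [Real.norm_eq_abs]
        exact hB _
  have hout : Integrable fun x => ∫ y, W (x - y) * (rho K x * rho K y) :=
    hHi.integral_prod_left
  set box : Set (Fin 3 → ℝ) := Metric.closedBall 0 R with hbox
  have hboxm : MeasurableSet box := Metric.isClosed_closedBall.measurableSet
  have hin : ∀ x ∈ box, ∫ y, W (x - y) * (rho K x * rho K y) = -I := by
    intro x hx
    rw [hbox, mem_closedBall_zero_iff, pi_norm_le_iff_of_nonneg hR.le] at hx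
    have h1 : ∀ y, W (x - y) * (rho K x * rho K y) = W (x - y) := by
      intro y
      by_cases h : W (x - y) = 0
      · rw [h, zero_mul]
      · have hz := hsupp _ h
        rw [rho_one hKpos (fun a => by
          have := hx a
          rw [Real.norm_eq_abs] at this
          rw [hK]
          linarith), rho_one hKpos (fun a => by
          have h2 := hx a
          rw [Real.norm_eq_abs] at h2
          have h3 := hz a
          rw [Pi.sub_apply] at h3
          have h4 : |y a| ≤ |x a| + |x a - y a| := by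
            have := abs_sub (x a) (x a - y a)
            simpa using this
          rw [hK]
          linarith)]
        ring
    simp_rw [h1]
    rw [integral_sub_left_eq_self W volume x, hI, integral_neg, neg_neg]
  have hle : ∀ x, (∫ y, W (x - y) * (rho K x * rho K y)) ≤ box.indicator (fun _ => -I) x := by
    intro x
    by_cases hx : x ∈ box
    · rw [indicator_of_mem hx, hin x hx]
    · rw [indicator_of_notMem hx]
      apply integral_nonpos
      intro y
      have h1 := hW.nonpos (x - y)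
      have h2 := rho_nonneg K x
      have h3 := rho_nonneg K y
      simp only [Pi.zero_apply]
      exact mul_nonpos_of_nonpos_of_nonneg h1 (mul_nonneg h2 h3)
  have hvol : 0 < volume.real box := by
    have h1 : 0 < volume box := Metric.measure_closedBall_pos volume 0 hR
    have h2 : volume box < ⊤ := measure_closedBall_lt_top
    exact ENNReal.toReal_pos h1.ne' h2.ne
  have hind : Integrable (box.indicator fun _ : Fin 3 → ℝ => -I) := by
    rw [integrable_indicator_iff hboxm]
    exact integrableOn_const measure_closedBall_lt_top.ne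
  have h5 := integral_mono hout hind hle
  rw [integral_indicator hboxm, setIntegral_const, smul_eq_mul] at h5
  nlinarith

theorem kap_smul (W : (Fin 3 → ℝ) → ℝ) (K w : ℝ) : kap (fun x => w * W x) K = w * kap W K := by
  unfold kap
  have h1 : (∫ x, ∫ y, w * W (x - y) * (rho K x * rho K y)) =
      w * ∫ x, ∫ y, W (x - y) * (rho K x * rho K y) := by
    rw [← integral_const_mul]
    apply integral_congr_ae
    filter_upwards with x
    rw [← integral_const_mul]
    apply integral_congr_ae
    filter_upwards with y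
    ring
  rw [h1]
  ring

theorem isPair_smul {W : (Fin 3 → ℝ) → ℝ} (hW : IsPair W) {w : ℝ} (hw : 0 ≤ w) :
    IsPair (fun x => w * W x) where
  measurable := hW.measurable.const_mul w
  nonpos := fun x => mul_nonpos_of_nonneg_of_nonpos hw (hW.nonpos x)
  even := fun x => by rw [hW.even x]
  bdd := by
    obtain ⟨B, hB⟩ := hW.bdd
    refine ⟨w * B, fun x => ?_⟩
    rw [abs_mul, abs_of_nonneg hw]
    exact mul_le_mul_of_nonneg_left (hB x) hw
  supp := hW.supp.mul_left

end Pool.Agent.H50.Bose3
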