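import Pool.Agent.H50.Bose3.Energy

set_option autoImplicit false

/-!
# Instability for `β ≥ 3/4`
-/

namespace Pool.Agent.H50.Bose3

open MeasureTheory Set Pool.Agent.H50.Bose

/-- The support of a three-body potential is contained in a cube. -/
theorem supp_cube {V : (Fin 3 → ℝ) → (Fin 3 → ℝ) → ℝ} (hV : IsThreeBody V) :
    ∃ R : ℝ, 0 ≤ R ∧ ∀ x y, V x y ≠ 0 → ∀ a, |x a| ≤ R ∧ |y a| ≤ R := by
  obtain ⟨R, hR⟩ := hV.supp.isCompact.isBounded.exists_norm_le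
  refine ⟨max R 0, le_max_right _ _, fun x y h a => ?_⟩
  have h1 := hR (x, y) (subset_tsupport (Function.uncurry V) h)
  have h2 : ‖x‖ ≤ ‖(x, y)‖ := norm_fst_le (x, y)
  have h3 : ‖y‖ ≤ ‖(x, y)‖ := norm_snd_le (x, y)
  have h4 := norm_le_pi_norm x a
  have h5 := norm_le_pi_norm y a
  rw [Real.norm_eq_abs] at h4 h5
  exact ⟨(h4.trans (h2.trans h1)).trans (le_max_left _ _),
    (h5.trans (h3.trans h1)).trans (le_max_left _ _)⟩

/-- Cube roots of large numbers, rounded. -/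
theorem cube_floor {x : ℝ} (hx : 1 ≤ x) : 0 < ⌊x ^ (1 / 3 : ℝ)⌋₊ ∧
    ((⌊x ^ (1 / 3 : ℝ)⌋₊ : ℕ) : ℝ) ≤ x ^ (1 / 3 : ℝ) ∧
    x / 8 ≤ ((⌊x ^ (1 / 3 : ℝ)⌋₊ : ℕ) : ℝ) ^ 3 ∧ ((⌊x ^ (1 / 3 : ℝ)⌋₊ : ℕ) : ℝ) ^ 3 ≤ x := by
  have hx0 : 0 ≤ x := by linarith
  have h1 : 1 ≤ x ^ (1 / 3 : ℝ) := Real.one_le_rpow hx (by norm_num)
  have h3 : (x ^ (1 / 3 : ℝ)) ^ 3 = x := by
    rw [← Real.rpow_natCast, ← Real.rpow_mul hx0]
    norm_num
  have hle := Nat.floor_le (le_trans zero_le_one h1)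
  have hlt := Nat.lt_floor_add_one (x ^ (1 / 3 : ℝ))
  have hge : 1 ≤ ⌊x ^ (1 / 3 : ℝ)⌋₊ := Nat.one_le_floor_iff _ |>.mpr h1
  have hge' : (1 : ℝ) ≤ ((⌊x ^ (1 / 3 : ℝ)⌋₊ : ℕ) : ℝ) := by exact_mod_cast hge
  set m : ℝ := ((⌊x ^ (1 / 3 : ℝ)⌋₊ : ℕ) : ℝ) with hm
  set y := x ^ (1 / 3 : ℝ) with hy
  refine ⟨hge, hle, ?_, ?_⟩
  · have h4 : y / 2 ≤ m := by linarith
    have h5 : (y / 2) ^ 3 ≤ m ^ 3 := pow_le_pow_left₀ (by linarith) h4 3
    rw [← h3]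
    calc y ^ 3 / 8 = (y / 2) ^ 3 := by ring
      _ ≤ _ := h5
  · rw [← h3]
    exact pow_le_pow_left₀ (by linarith) hle 3

/-- The main estimate: if the interaction beats the kinetic and the three-body energy on the scale
`N^(1 + 2 β)` then the system is unstable. -/
theorem unstable_core {β : ℝ} (hb1 : β ≤ 1) (hb0 : 1 / 2 ≤ β) {U : (Fin 3 → ℝ) → ℝ} (hU : IsTrap U)
    {V : (Fin 3 → ℝ) → (Fin 3 → ℝ) → ℝ} (hV : IsThreeBody V) {W : (Fin 3 → ℝ) → ℝ}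
    (hW : IsPair W) {K ε B : ℝ} (hK : 0 < K) (hε : 0 < ε) (hε1 : ε ≤ 1) (hB : ∀ x y, V x y ≤ B)
    (N0 : ℝ) (hmain : ∀ N : ℕ, N0 ≤ N →
      (3 * (kinB / massB) / K ^ 2 + 1) * (N : ℝ) ^ (1 + 2 * β) +
        64 * B / ε ^ 2 * (N : ℝ) ^ (4 - 2 * β) ≤ kap W K / (4 * ε) * (N : ℝ) ^ (1 + 2 * β))
    (hkap : 0 ≤ kap W K) : ¬ Stable β U V W := by
  have hB0 : 0 ≤ B := (hV.nonneg 0 0).trans (hB 0 0)
  have hκ0 : 0 ≤ kinB / massB := div_nonneg kinB_nonneg massB_pos.le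
  set κ := kinB / massB with hκ
  rintro ⟨C, hC0, hC⟩
  obtain ⟨R, hR, hsupp⟩ := supp_cube hV
  set R1 := R + 1 + 3 * K with hR1
  obtain ⟨BU, hBU⟩ := hU.locBdd (2 * R1)
  obtain ⟨N, hN⟩ := exists_nat_gt (max (max 2 N0) (max (|BU| + C) (1 / ε ^ 2)))
  have hN2 : (2 : ℝ) < N := ((le_max_left _ _).trans (le_max_left _ _)).trans_lt hN
  have hNN0 : N0 ≤ N := (((le_max_right _ _).trans (le_max_left _ _)).trans_lt hN).le
  have hNBC : |BU| + C < N := ((le_max_left _ _).trans (le_max_right _ _)).trans_lt hN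
  have hNε : 1 / ε ^ 2 < N := ((le_max_right _ _).trans (le_max_right _ _)).trans_lt hN
  have hN1 : 1 ≤ N := by
    have : (1 : ℝ) < N := by linarith
    exact_mod_cast this.le
  have hNpos : (0 : ℝ) < N := by linarith
  have hN1' : (1 : ℝ) ≤ N := by linarith
  set s := (N : ℝ) ^ β with hs
  have hspos : 0 < s := Real.rpow_pos_of_pos hNpos _
  have hs1 : 1 ≤ s := Real.one_le_rpow hN1' (by linarith)
  have hεs : 1 ≤ ε * s := by
    have h1 : (N : ℝ) ^ (1 / 2 : ℝ) ≤ s := Real.rpow_le_rpow_of_exponent_le hN1' hb0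
    have h2 : 1 / ε ≤ (N : ℝ) ^ (1 / 2 : ℝ) := by
      rw [← Real.sqrt_eq_rpow]
      apply Real.le_sqrt_of_sq_le
      rw [div_pow, one_pow]
      exact hNε.le
    have h3 : 1 / ε ≤ s := h2.trans h1
    rw [div_le_iff₀ hε] at h3
    linarith
  obtain ⟨hm0, hm1, hm2, hm3⟩ := cube_floor hεs
  set m := ⌊(ε * s) ^ (1 / 3 : ℝ)⌋₊ with hm
  set L := s / K with hL
  have hLpos : 0 < L := div_pos hspos hK
  set r := (N : ℝ) ^ (-(1 / 2) : ℝ) with hr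
  have hrpos : 0 < r := Real.rpow_pos_of_pos hNpos _
  set d := (R + 1) * r + 2 / L with hd
  have hm4 : (m : ℝ) ≤ (N : ℝ) ^ (β / 3) := by
    refine hm1.trans ?_
    calc (ε * s) ^ (1 / 3 : ℝ) ≤ s ^ (1 / 3 : ℝ) := by
          apply Real.rpow_le_rpow (by positivity) _ (by norm_num)
          nlinarith
      _ = (N : ℝ) ^ (β / 3) := by
        rw [hs, ← Real.rpow_mul hNpos.le]
        congr 1
        ring
  have hmr : m * r ≤ 1 := by
    calc (m : ℝ) * r ≤ (N : ℝ) ^ (β / 3) * (N : ℝ) ^ (-(1 / 2) : ℝ) := by gcongr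
      _ = (N : ℝ) ^ (β / 3 - 1 / 2) := by
        rw [← Real.rpow_add hNpos, ← sub_eq_add_neg]
      _ ≤ 1 := Real.rpow_le_one_of_one_le_of_nonpos hN1' (by linarith)
  have hms : (m : ℝ) / s ≤ 1 := by
    rw [div_le_one hspos]
    refine hm4.trans ?_
    exact Real.rpow_le_rpow_of_exponent_le hN1' (by linarith)
  have hLinv : 1 / L = K / s := by rw [hL, one_div_div]
  have hmd : m * d + 1 / L ≤ R1 := by
    have h1 : (m : ℝ) * d = (R + 1) * (m * r) + 2 * K * (m / s) := by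
      rw [hd, hL]
      field_simp
    have h2 : 1 / L ≤ K := by
      rw [hLinv]
      exact div_le_self hK.le hs1
    have h3 : (R + 1) * (m * r) ≤ R + 1 := by
      have : (R + 1) * (m * r) ≤ (R + 1) * 1 := by gcongr
      linarith
    have h4 : 2 * K * (m / s) ≤ 2 * K := by
      have : 2 * K * (m / s) ≤ 2 * K * 1 := by gcongr
      linarith
    rw [h1, hR1]
    linarith
  have hd2 : 2 / L < d := by
    rw [hd]
    have : 0 < (R + 1) * r := by positivity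
    linarith
  have hen := energy_multi (N := N) (m := m) (β := β) (K := K) (B := B) (R := R) (BU := BU)
    (d := d) (R1 := R1) hU hV hW hK hB hR hsupp hBU hNpos hm0 rfl hmd
  have htest : IsTest N (multi N m L d) := isTest_multi hLpos (le_trans (by positivity) hd2.le)
  have hstab := hC N hN1 _ htest
  have hmass : 0 < ∫ X, ‖multi N m L d X‖ ^ 2 := multi_mass_pos hLpos hd2 hm0
  set M := ∫ X, ‖multi N m L d X‖ ^ 2 with hM
  have h1 : -C * N * M ≤ (3 * N * (L ^ 2 * κ) + N * |BU| -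
        (N : ℝ) ^ (3 * β - 1) * kap W K * cnt N / (m : ℝ) ^ 3 +
        (N : ℝ) * B * (N : ℝ) ^ 3 / ((m : ℝ) ^ 3) ^ 2) * M := hstab.trans hen
  have h2 := le_of_mul_le_mul_right h1 hmass
  -- the four terms
  have hA : (N : ℝ) ^ (1 + 2 * β) = N * s ^ 2 := by
    rw [hs, ← Real.rpow_natCast ((N : ℝ) ^ β), ← Real.rpow_mul hNpos.le, Real.rpow_add hNpos,
      Real.rpow_one]
    congr 2
    push_cast
    ring
  have hk : 3 * N * (L ^ 2 * κ) = 3 * κ / K ^ 2 * (N : ℝ) ^ (1 + 2 * β) := by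
    rw [hA, hL]
    field_simp
  have hcnt : (N : ℝ) ^ 2 ≤ 4 * cnt N := by
    have := two_cnt N
    nlinarith
  have hm3pos : (0 : ℝ) < (m : ℝ) ^ 3 := by
    have : (0 : ℝ) < m := by exact_mod_cast hm0
    positivity
  have hp : kap W K / (4 * ε) * (N : ℝ) ^ (1 + 2 * β) ≤
      (N : ℝ) ^ (3 * β - 1) * kap W K * cnt N / (m : ℝ) ^ 3 := by
    rw [le_div_iff₀ hm3pos]
    have e1 : (N : ℝ) ^ (1 + 2 * β) * s = (N : ℝ) ^ (3 * β - 1) * (N : ℝ) ^ 2 := by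
      rw [hs, ← Real.rpow_add hNpos, ← Real.rpow_natCast (N : ℝ) 2, ← Real.rpow_add hNpos]
      congr 1
      push_cast
      ring
    have hpos : 0 ≤ kap W K / (4 * ε) * (N : ℝ) ^ (1 + 2 * β) := by positivity
    calc kap W K / (4 * ε) * (N : ℝ) ^ (1 + 2 * β) * (m : ℝ) ^ 3
        ≤ kap W K / (4 * ε) * (N : ℝ) ^ (1 + 2 * β) * (ε * s) :=
          mul_le_mul_of_nonneg_left hm3 hpos
      _ = kap W K / 4 * ((N : ℝ) ^ (1 + 2 * β) * s) := by
        field_simp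
      _ = (N : ℝ) ^ (3 * β - 1) * kap W K * ((N : ℝ) ^ 2 / 4) := by
        rw [e1]
        ring
      _ ≤ (N : ℝ) ^ (3 * β - 1) * kap W K * cnt N := by
        apply mul_le_mul_of_nonneg_left _ (by positivity)
        linarith
  have hv : (N : ℝ) * B * (N : ℝ) ^ 3 / ((m : ℝ) ^ 3) ^ 2 ≤
      64 * B / ε ^ 2 * (N : ℝ) ^ (4 - 2 * β) := by
    have e1 : (N : ℝ) ^ (4 - 2 * β) = (N : ℝ) ^ 4 / s ^ 2 := by
      rw [hs, ← Real.rpow_natCast ((N : ℝ) ^ β), ← Real.rpow_mul hNpos.le,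
        ← Real.rpow_natCast (N : ℝ) 4, ← Real.rpow_sub hNpos]
      congr 1
      push_cast
      ring
    have e2 : (ε * s / 8) ^ 2 ≤ ((m : ℝ) ^ 3) ^ 2 := pow_le_pow_left₀ (by positivity) hm2 2
    calc (N : ℝ) * B * (N : ℝ) ^ 3 / ((m : ℝ) ^ 3) ^ 2 ≤
          (N : ℝ) * B * (N : ℝ) ^ 3 / (ε * s / 8) ^ 2 := by
          apply div_le_div_of_nonneg_left (by positivity) (by positivity) e2
      _ = _ := by
        rw [e1]
        field_simp
        ring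
  have hfin := hmain N hNN0
  have h3 : (N : ℝ) ^ 2 ≤ (N : ℝ) ^ (1 + 2 * β) := by
    rw [← Real.rpow_natCast]
    apply Real.rpow_le_rpow_of_exponent_le hN1'
    push_cast
    linarith
  have h4 : -C * N ≤ N * |BU| - (N : ℝ) ^ 2 := by
    have e : (3 * κ / K ^ 2 + 1) * (N : ℝ) ^ (1 + 2 * β) =
        3 * κ / K ^ 2 * (N : ℝ) ^ (1 + 2 * β) + (N : ℝ) ^ (1 + 2 * β) := by ring
    rw [e] at hfin
    rw [hk] at h2
    linarith
  nlinarith

/-- For `β > 3/4` every nonzero attractive two-body interaction makes the system unstable. -/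
theorem unstable_every {β : ℝ} (hb : 3 / 4 < β) (hb1 : β ≤ 1) {U : (Fin 3 → ℝ) → ℝ}
    (hU : IsTrap U) {V : (Fin 3 → ℝ) → (Fin 3 → ℝ) → ℝ} (hV : IsThreeBody V)
    {W : (Fin 3 → ℝ) → ℝ} (hW : IsPair W) (hne : ¬ ∀ᵐ x, W x = 0) : ¬ Stable β U V W := by
  obtain ⟨K, hK, hkap⟩ := kap_pos hW hne
  obtain ⟨B, hB⟩ := hV.bdd
  have hB0 : 0 ≤ B := (hV.nonneg 0 0).trans (hB 0 0)
  have hκ0 : 0 ≤ kinB / massB := div_nonneg kinB_nonneg massB_pos.le
  set A := 3 * (kinB / massB) / K ^ 2 + 2 with hA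
  have hA0 : 0 < A := by positivity
  set ε := min 1 (kap W K / (4 * A)) with hε
  have hεpos : 0 < ε := lt_min one_pos (by positivity)
  have hε1 : ε ≤ 1 := min_le_left _ _
  have hεA : A ≤ kap W K / (4 * ε) := by
    rw [le_div_iff₀ (by positivity)]
    have h1 : ε ≤ kap W K / (4 * A) := min_le_right _ _
    rw [le_div_iff₀ (by positivity)] at h1
    linarith
  -- `N ^ (4 β - 3)` is large
  have hγ : 0 < 4 * β - 3 := by linarith
  set D := 64 * B / ε ^ 2 with hD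
  have hD0 : 0 ≤ D := by positivity
  refine unstable_core hb1 (by linarith) hU hV hW hK hεpos hε1 hB
    (max 1 (D ^ (1 / (4 * β - 3)))) ?_ hkap.le
  intro N hN
  have hN1 : (1 : ℝ) ≤ N := (le_max_left _ _).trans hN
  have hN2 : D ^ (1 / (4 * β - 3)) ≤ N := (le_max_right _ _).trans hN
  have hNpos : (0 : ℝ) < N := by linarith
  have h1 : D ≤ (N : ℝ) ^ (4 * β - 3) := by
    calc D = (D ^ (1 / (4 * β - 3))) ^ (4 * β - 3) := by
          rw [← Real.rpow_mul hD0, one_div_mul_cancel hγ.ne', Real.rpow_one]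
      _ ≤ _ := Real.rpow_le_rpow (by positivity) hN2 hγ.le
  have h2 : D * (N : ℝ) ^ (4 - 2 * β) ≤ (N : ℝ) ^ (1 + 2 * β) := by
    calc D * (N : ℝ) ^ (4 - 2 * β) ≤ (N : ℝ) ^ (4 * β - 3) * (N : ℝ) ^ (4 - 2 * β) := by gcongr
      _ = _ := by
        rw [← Real.rpow_add hNpos]
        congr 1
        ring
  have h3 : 0 < (N : ℝ) ^ (1 + 2 * β) := Real.rpow_pos_of_pos hNpos _
  have h4 : A * (N : ℝ) ^ (1 + 2 * β) ≤ kap W K / (4 * ε) * (N : ℝ) ^ (1 + 2 * β) := by gcongr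
  have h5 : A * (N : ℝ) ^ (1 + 2 * β) =
      (3 * (kinB / massB) / K ^ 2 + 1) * (N : ℝ) ^ (1 + 2 * β) + (N : ℝ) ^ (1 + 2 * β) := by
    rw [hA]
    ring
  linarith

/-- For `β ≥ 3/4` every sufficiently large multiple of a nonzero attractive two-body interaction
makes the system unstable. -/
theorem unstable_large {β : ℝ} (hb : 3 / 4 ≤ β) (hb1 : β ≤ 1) {U : (Fin 3 → ℝ) → ℝ}
    (hU : IsTrap U) {V : (Fin 3 → ℝ) → (Fin 3 → ℝ) → ℝ} (hV : IsThreeBody V)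
    {W : (Fin 3 → ℝ) → ℝ} (hW : IsPair W) (hne : ¬ ∀ᵐ x, W x = 0) :
    ∃ w0 : ℝ, 0 < w0 ∧ ∀ w : ℝ, w0 ≤ w → ¬ Stable β U V (fun x => w * W x) := by
  obtain ⟨K, hK, hkap⟩ := kap_pos hW hne
  obtain ⟨B, hB⟩ := hV.bdd
  have hB0 : 0 ≤ B := (hV.nonneg 0 0).trans (hB 0 0)
  have hκ0 : 0 ≤ kinB / massB := div_nonneg kinB_nonneg massB_pos.le
  set A := 3 * (kinB / massB) / K ^ 2 + 1 + 64 * B with hA
  have hA0 : 0 < A := by positivity
  refine ⟨4 * A / kap W K, by positivity, fun w hw => ?_⟩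
  have hw0 : 0 < w := lt_of_lt_of_le (by positivity) hw
  have hkw : 4 * A ≤ w * kap W K := by
    rw [div_le_iff₀ hkap] at hw
    linarith
  refine unstable_core hb1 (by linarith) hU hV (isPair_smul hW hw0.le) hK one_pos le_rfl hB
    1 ?_ (by rw [kap_smul]; positivity)
  intro N hN1
  have hNpos : (0 : ℝ) < N := by linarith
  rw [kap_smul]
  have h2 : (N : ℝ) ^ (4 - 2 * β) ≤ (N : ℝ) ^ (1 + 2 * β) :=
    Real.rpow_le_rpow_of_exponent_le hN1 (by linarith)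
  have h3 : 0 < (N : ℝ) ^ (1 + 2 * β) := Real.rpow_pos_of_pos hNpos _
  have h4 : A * (N : ℝ) ^ (1 + 2 * β) ≤ w * kap W K / (4 * 1) * (N : ℝ) ^ (1 + 2 * β) := by
    apply mul_le_mul_of_nonneg_right _ h3.le
    linarith
  have h5 : 64 * B / 1 ^ 2 * (N : ℝ) ^ (4 - 2 * β) ≤ 64 * B * (N : ℝ) ^ (1 + 2 * β) := by
    have : 64 * B / 1 ^ 2 = 64 * B := by ring
    rw [this]
    gcongr
  have h6 : A * (N : ℝ) ^ (1 + 2 * β) =
      (3 * (kinB / massB) / K ^ 2 + 1) * (N : ℝ) ^ (1 + 2 * β) +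
        64 * B * (N : ℝ) ^ (1 + 2 * β) := by
    rw [hA]
    ring
  linarith

theorem W0_ne {w : ℝ} (hw : 0 < w) : ¬ ∀ᵐ x, W0 w x = 0 := by
  intro h
  have hpos : 0 < volume (Metric.ball (0 : Fin 3 → ℝ) 1) := Metric.measure_ball_pos volume 0 one_pos
  apply hpos.ne'
  rw [ae_iff] at h
  refine measure_mono_null ?_ h
  intro x hx
  rw [mem_ball_zero_iff] at hx
  show ¬ W0 w x = 0
  unfold W0
  rw [if_pos]
  · linarith
  · intro a
    have h1 := norm_le_pi_norm x a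
    rw [Real.norm_eq_abs] at h1
    linarith

/-- Instability for `β ≥ 3/4`, for every admissible three-body potential. -/
theorem unstable_any {β : ℝ} (hb : 3 / 4 ≤ β) (hb1 : β ≤ 1) {U : (Fin 3 → ℝ) → ℝ}
    (hU : IsTrap U) {V : (Fin 3 → ℝ) → (Fin 3 → ℝ) → ℝ} (hV : IsThreeBody V) :
    ∃ W, IsPair W ∧ ¬ Stable β U V W := by
  have hW := isPair_W0 (w := 1) zero_le_one
  obtain ⟨w0, hw0, h⟩ := unstable_large hb hb1 hU hV hW (W0_ne one_pos)
  exact ⟨_, isPair_smul hW hw0.le, h w0 le_rfl⟩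

end Pool.Agent.H50.Bose3
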